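import Mathlib
import Pool.Agent.H.MP_c8cc4c_co.B.ConnF
import Pool.Agent.H.MP_c8cc4c_co.B.Sdist

/-! # MP_c8cc4c_co, part T, file 2: walks as sets -/

open scoped Classical
open Finset

noncomputable section

namespace Pool.Agent.H.MP_c8cc4c_co

variable {V : Type} {G : SimpleGraph V}

/-- initial part of a walk -/
theorem Walks_take {x y : V} (p : G.Walk x y) (B : Set V) (i : ℕ) (hi : i ≤ p.length)
    (hB : ∀ j ≤ i, p.getVert j ∈ B) : Near G B i x (p.getVert i) := by
  refine ⟨p.take i, ?_, ?_⟩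
  · rw [SimpleGraph.Walk.take_length]; exact min_le_left _ _
  · intro v hv
    obtain ⟨j, hj, hj2⟩ := SimpleGraph.Walk.mem_support_iff_exists_getVert.mp hv
    rw [SimpleGraph.Walk.take_getVert] at hj
    rw [← hj]
    exact hB _ (min_le_left _ _)

/-- final part of a walk -/
theorem Walks_drop {x y : V} (p : G.Walk x y) (B : Set V) (i : ℕ)
    (hB : ∀ j, i ≤ j → j ≤ p.length → p.getVert j ∈ B) (hi : i ≤ p.length) :
    Near G B (p.length - i) (p.getVert i) y := by
  refine ⟨p.drop i, ?_, ?_⟩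
  · rw [SimpleGraph.Walk.drop_length]
  · intro v hv
    obtain ⟨j, hj, hj2⟩ := SimpleGraph.Walk.mem_support_iff_exists_getVert.mp hv
    rw [SimpleGraph.Walk.drop_getVert] at hj
    rw [SimpleGraph.Walk.drop_length] at hj2
    rw [← hj]
    exact hB _ (by omega) (by omega)

/-- The vertex set `T` of a path of length `≤ n` from `x` to `y` in `A`. Take a path `p` (`Walk.bypass` of the given
walk: `Walk.bypass_isPath`, `Walk.length_bypass_le`, `Walk.support_bypass_subset`) and
`T = {v | v ∈ p.support}` (`connOn_support`); `T` has at most `p.length + 1 ≤ n + 1` elements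
(`Walk.length_support`, `List.toFinset_card_le`). For `v ∈ T` let `v = p.getVert i`, `i ≤ p.length`; use `p.take i`,
`p.drop i` (or `takeUntil`, `dropUntil`); the lengths add up to `p.length ≤ n`, enlarge the second one. If `v ≠ y` then `i < p.length` and no
vertex `p.getVert j` with `j ≤ i` is `y = p.getVert p.length` because `p` is a path. -/
theorem walk_set {A : Set V} {n : ℕ} {x y : V} (h : Near G A n x y) :
    ∃ T : Set V, T ⊆ A ∧ x ∈ T ∧ y ∈ T ∧ ConnOn G T ∧ T.ncard ≤ n + 1 ∧
      ∀ v ∈ T, ∃ t t', t + t' = n ∧ Near G T t x v ∧ Near G T t' v y ∧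
        (v ≠ y → Near G (T \ {y}) t x v) := by
  obtain ⟨p0, hp0, hp0A⟩ := h
  obtain ⟨p, hp, hpl, hpA⟩ : ∃ p : G.Walk x y, p.IsPath ∧ p.length ≤ n ∧ ∀ v ∈ p.support, v ∈ A :=
    ⟨p0.bypass, p0.bypass_isPath, (p0.length_bypass_le_length).trans hp0,
      fun v hv => hp0A v (p0.support_bypass_subset_support hv)⟩
  have hmem : ∀ j, p.getVert j ∈ {v | v ∈ p.support} := fun j => p.getVert_mem_support j
  refine ⟨{v | v ∈ p.support}, fun v hv => hpA v hv, p.start_mem_support, p.end_mem_support,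
    connOn_support p, ?_, ?_⟩
  · have h1 : ({v | v ∈ p.support} : Set V) = (p.support.toFinset : Set V) := by
      ext v; simp
    rw [h1, Set.ncard_coe_finset]
    refine (List.toFinset_card_le _).trans ?_
    rw [SimpleGraph.Walk.length_support]
    omega
  · intro v hv
    obtain ⟨i, hi, hi2⟩ := SimpleGraph.Walk.mem_support_iff_exists_getVert.mp hv
    refine ⟨i, n - i, by omega, ?_, ?_, ?_⟩
    · rw [← hi]
      exact Walks_take p _ i hi2 (fun j _ => hmem j)
    · rw [← hi]
      exact near_mono (Walks_drop p _ i (fun j _ _ => hmem j) hi2) (by omega) (le_refl _)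
    · intro hvy
      rw [← hi]
      refine Walks_take p _ i hi2 (fun j hj => ⟨hmem j, ?_⟩)
      intro hjy
      have h2 : j = p.length :=
        (hp.getVert_eq_end_iff (by omega : j ≤ p.length)).mp hjy
      have h3 : i = p.length := by omega
      apply hvy
      rw [← hi, h3, SimpleGraph.Walk.getVert_length]

/-- A shortest walk from `y` to the set `U`. Let `L` be the least `n` such that some `z ∈ U` is `Near n` to `y`
(`Nat.find`), `L ≤ d`; take a walk `p` of length `≤ L` from `y` to `z ∈ U`; its length is exactly `L`. `T` = support of `p`.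
For `v = p.getVert t` (`t ≤ L`), `t' = L - t`: the two parts of `p` have lengths `t` and `t'`
(`p.take t`, `p.drop t`). If `z' ∈ U` and `Near n v z'` then `Near (t + n) y z'`, so `L ≤ t + n`, `t' ≤ n`.
If a vertex `w = p.getVert s` with `s ≤ t` is in `U` then `L ≤ s`, so `s = t = L` and `w = v`; this gives the last
statement. -/
theorem shortest_walk (G : SimpleGraph V) (U : Set V) (y : V) (d : ℕ)
    (h : ∃ z ∈ U, Near G Set.univ d y z) :
    ∃ (T : Set V) (z : V) (L : ℕ), L ≤ d ∧ z ∈ U ∧ z ∈ T ∧ y ∈ T ∧ ConnOn G T ∧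
      ∀ v ∈ T, ∃ t t', t + t' = L ∧ Near G T t y v ∧ Near G T t' v z ∧
        (∀ z' ∈ U, ∀ n, Near G Set.univ n v z' → t' ≤ n) ∧
        Near G {w | w ∈ U → w = v} t y v := by
  have hex : ∃ n, ∃ z ∈ U, Near G Set.univ n y z := ⟨d, h⟩
  obtain ⟨L, hL⟩ : ∃ L, L = Nat.find hex := ⟨_, rfl⟩
  have hLd : L ≤ d := by rw [hL]; exact Nat.find_min' hex h
  have hmin : ∀ n, (∃ z ∈ U, Near G Set.univ n y z) → L ≤ n := by
    intro n hn; rw [hL]; exact Nat.find_min' hex hn
  obtain ⟨z, hz, p, hp, hpA⟩ : ∃ z ∈ U, Near G Set.univ L y z := by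
    rw [hL]; exact Nat.find_spec hex
  have hpl : p.length = L :=
    le_antisymm hp (hmin _ ⟨z, hz, p, le_refl _, fun _ _ => Set.mem_univ _⟩)
  have hmem : ∀ j, p.getVert j ∈ {v | v ∈ p.support} := fun j => p.getVert_mem_support j
  refine ⟨{v | v ∈ p.support}, z, L, hLd, hz, p.end_mem_support, p.start_mem_support,
    connOn_support p, ?_⟩
  intro v hv
  obtain ⟨i, hi, hi2⟩ := SimpleGraph.Walk.mem_support_iff_exists_getVert.mp hv
  have h1 : Near G {v | v ∈ p.support} i y v := by
    rw [← hi]; exact Walks_take p _ i hi2 (fun j _ => hmem j)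
  refine ⟨i, L - i, by omega, h1, ?_, ?_, ?_⟩
  · rw [← hi, ← hpl]
    exact Walks_drop p _ i (fun j _ _ => hmem j) hi2
  · intro z' hz' n hn
    have h2 := hmin (i + n) ⟨z', hz', near_trans (near_mono h1 (le_refl _) (Set.subset_univ _)) hn⟩
    omega
  · rw [← hi]
    refine Walks_take p _ i hi2 (fun j hj => ?_)
    intro hjU
    have h2 := hmin j ⟨_, hjU, Walks_take p _ j (by omega) (fun _ _ => Set.mem_univ _)⟩
    have h3 : j = i := by omega
    rw [h3]

/-- Let every connected subset of `F` have fewer than `s` vertices. A walk in `X` from `v ∈ F` to `y ∉ F`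
gives a walk in `X` of length at most `s` from `v` to some `w ∈ X` outside `F`: `near_exit` with `B = F` gives
`u ∈ X ∩ F`, `w ∉ F` adjacent to `u`, `Near (X ∩ F) k v u`, `Near X l w y`; the component
`comp G (X ∩ F) v` is connected (`comp_isComp`), in `F`, contains `v`, `u`, so it has fewer than `s` vertices;
`connOn_near`. -/
theorem exit_short [Fintype V] (F X : Set V) (s n : ℕ)
    (hs : ∀ Y, ConnOn G Y → Y ⊆ F → Y.ncard < s) {v y : V} (h : Near G X n v y) (hv : v ∈ F)
    (hy : y ∉ F) : ∃ w ∈ X, w ∉ F ∧ Near G X s v w := by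
  obtain ⟨u, w, k, l, hkl, h1, h2, h3, h4⟩ := near_exit (B := F) h hv hy
  have hvX : v ∈ X ∩ F := ⟨near_left h, hv⟩
  have hC : IsComp G (X ∩ F) (comp G (X ∩ F) v) := comp_isComp hvX
  have hu : u ∈ comp G (X ∩ F) v := ⟨k, h1⟩
  have hcard := hs _ hC.1 (fun a ha => (hC.2.1 ha).2)
  have h5 := connOn_near hC.1 (mem_comp_self hvX) hu
  have hw : w ∈ X := near_left h4
  refine ⟨w, hw, h3, ?_⟩
  have h6 : Near G X ((comp G (X ∩ F) v).ncard - 1) v u :=
    near_mono h5 (le_refl _) (fun a ha => (hC.2.1 ha).1)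
  have hpos : 0 < (comp G (X ∩ F) v).ncard := by
    rw [Set.ncard_pos]; exact ⟨v, mem_comp_self hvX⟩
  exact near_mono (near_trans h6 (near_adj (near_right h6) hw h2)) (by omega) (le_refl _)

/-- A walk of length `≤ n` from a vertex which is not near `O` avoids `O` (`near_sub`). -/
theorem near_avoid {O : Set V} {n : ℕ} {x y : V} (h : Near G Set.univ n x y)
    (hx : ∀ z ∈ O, ¬ Near G Set.univ n x z) : Near G Oᶜ n x y := by
  have h1 : Near G (Set.univ ∩ Oᶜ) n x y :=
    near_sub h (fun z hz hzO => hx z hzO hz)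
  exact near_mono h1 (le_refl _) Set.inter_subset_right

end Pool.Agent.H.MP_c8cc4c_co
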