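import Mathlib
import Pool.Agent.H.MP_c8cc4c_co.T.Walks

/-! # MP_c8cc4c_co, part T, file 4: greedy pockets -/

open scoped Classical
open Finset

noncomputable section

namespace Pool.Agent.H.MP_c8cc4c_co

variable {V : Type}

/-- the vertices which are not within `d` of `U` and not within `R` of the first `j` pockets -/
def Rem (G : SimpleGraph V) (U : Set V) (A : ℕ → Set V) (d R j : ℕ) : Set V :=
  {v | (∀ z ∈ U, ¬ Near G Set.univ d v z) ∧ ∀ i < j, ∀ a ∈ A i, ¬ Near G Set.univ R v a}

/-- the sets `Rem` depend only on the earlier pockets -/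
theorem Pockets_congr (G : SimpleGraph V) (U : Set V) (A A' : ℕ → Set V) (d R j : ℕ)
    (h : ∀ i < j, A i = A' i) : Rem G U A d R j = Rem G U A' d R j := by
  ext v
  unfold Rem
  constructor
  · rintro ⟨h1, h2⟩
    exact ⟨h1, fun i hi a ha => h2 i hi a (by rw [h i hi]; exact ha)⟩
  · rintro ⟨h1, h2⟩
    exact ⟨h1, fun i hi a ha => h2 i hi a (by rw [← h i hi]; exact ha)⟩

/-- The greedy sequence of pockets. Suppose the statement is false. Then for every `m` there are `A`, `x` with the first two
properties (induction on `m`; for `m = 0` use any `x`, this needs a vertex, but if `V` is empty the third property is trivially true;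
in the step the third property fails, so there is `v ∈ Rem G U A rho rho m`; `v ∈ Rem G U A d R m` because
`d, R ≤ rho`; replace `A m` by the component `comp G (Rem G U A d R m) v` and `x m` by `v` (`Function.update`);
`Rem .. j` depends only on `A i`, `i < j`). The `x j`, `j < m`, are distinct: for `i < j` the vertex `x j` is not within `rho` of `x i ∈ A i`.
So `m ≤ |V|` for all `m`, a contradiction. -/
theorem exists_pockets [Fintype V] (G : SimpleGraph V) (U : Set V) (d R rho : ℕ) (hd : d ≤ rho)
    (hR : R ≤ rho) :
    ∃ (m : ℕ) (A : ℕ → Set V),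
      (∀ j < m, IsComp G (Rem G U A d R j) (A j)) ∧
      (∀ j < m, ∃ x ∈ A j, x ∈ Rem G U A rho rho j) ∧
      ∀ v, v ∉ Rem G U A rho rho m := by
  by_contra hcon
  push Not at hcon
  have key : ∀ m, ∃ A : ℕ → Set V, (∀ j < m, IsComp G (Rem G U A d R j) (A j)) ∧
      ∀ j < m, ∃ x ∈ A j, x ∈ Rem G U A rho rho j := by
    intro m
    induction m with
    | zero => exact ⟨fun _ => ∅, fun j hj => absurd hj (Nat.not_lt_zero j),
        fun j hj => absurd hj (Nat.not_lt_zero j)⟩
    | succ m ih =>
      obtain ⟨A, h1, h2⟩ := ih
      obtain ⟨v, hv⟩ := hcon m A h1 h2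
      have hv' : v ∈ Rem G U A d R m :=
        ⟨fun z hz hn => hv.1 z hz (near_mono hn hd (le_refl _)),
          fun i hi a ha hn => hv.2 i hi a ha (near_mono hn hR (le_refl _))⟩
      have hlt : ∀ j ≤ m, ∀ i < j, A i =
          Function.update A m (comp G (Rem G U A d R m) v) i := by
        intro j hj i hi
        rw [Function.update_of_ne (by omega)]
      refine ⟨Function.update A m (comp G (Rem G U A d R m) v), ?_, ?_⟩
      · intro j hj
        rw [← Pockets_congr G U A _ d R j (hlt j (by omega))]
        by_cases hjm : j = m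
        · subst hjm
          rw [Function.update_self]
          exact comp_isComp hv'
        · rw [Function.update_of_ne hjm]
          exact h1 j (by omega)
      · intro j hj
        rw [← Pockets_congr G U A _ rho rho j (hlt j (by omega))]
        by_cases hjm : j = m
        · subst hjm
          rw [Function.update_self]
          exact ⟨v, mem_comp_self hv', hv⟩
        · rw [Function.update_of_ne hjm]
          exact h2 j (by omega)
  obtain ⟨A, _, h2⟩ := key (Fintype.card V + 1)
  obtain ⟨x0, _, _⟩ := h2 0 (Nat.succ_pos _)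
  have : Nonempty V := ⟨x0⟩
  choose! x hx hx2 using h2
  have hinj : ∀ i < Fintype.card V + 1, ∀ j < Fintype.card V + 1, i < j → x i ≠ x j := by
    intro i hi j hj hij heq
    refine (hx2 j hj).2 i hij (x i) (hx i hi) ?_
    rw [← heq]
    exact near_mono (near_refl (Set.mem_univ _)) (Nat.zero_le _) (le_refl _)
  have hinj2 : Set.InjOn x (Finset.range (Fintype.card V + 1) : Finset ℕ) := by
    intro i hi j hj hij
    have hi' : i < Fintype.card V + 1 := by simpa using hi
    have hj' : j < Fintype.card V + 1 := by simpa using hj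
    by_contra hne
    rcases Nat.lt_or_gt_of_ne hne with h | h
    · exact hinj i hi' j hj' h hij
    · exact hinj j hj' i hi' h hij.symm
  have h3 := Finset.card_le_univ ((Finset.range (Fintype.card V + 1)).image x)
  rw [Finset.card_image_of_injOn hinj2, Finset.card_range] at h3
  omega

variable {G : SimpleGraph V} {U : Set V} {A : ℕ → Set V} {d R m i j : ℕ}

/-- different pockets are not within `R` (the later one is in the complement of the `R`-neighbourhood of
the earlier one) -/
theorem pocket_far (hA : ∀ j < m, IsComp G (Rem G U A d R j) (A j)) (hi : i < m) (hj : j < m)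
    (hij : i ≠ j) {a a' : V} (ha : a ∈ A i) (ha' : a' ∈ A j) : ¬ Near G Set.univ R a a' := by
  intro hn
  rcases Nat.lt_or_gt_of_ne hij with h | h
  · exact ((hA j hj).2.1 ha').2 i h a ha (near_symm hn)
  · exact ((hA i hi).2.1 ha).2 j h a' ha' hn

theorem pocket_seed (hA : ∀ j < m, IsComp G (Rem G U A d R j) (A j)) (hj : j < m) {a z : V}
    (ha : a ∈ A j) (hz : z ∈ U) : ¬ Near G Set.univ d a z :=
  ((hA j hj).2.1 ha).1 z hz

/-- a vertex adjacent to the pocket but not in it is not in `Rem` -/
theorem pocket_bdry (hA : IsComp G (Rem G U A d R j) (A j)) {x y : V} (hx : x ∈ A j)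
    (hy : y ∉ A j) (hxy : G.Adj x y) : (∃ z ∈ U, Near G Set.univ d y z) ∨
      ∃ i < j, ∃ a ∈ A i, Near G Set.univ R y a := by
  by_contra hcon
  push Not at hcon
  exact hy (hA.2.2 x hx y ⟨hcon.1, hcon.2⟩ hxy)

end Pool.Agent.H.MP_c8cc4c_co
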