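import Mathlib
import Pool.Agent.H.MP_c8cc4c_co.T.Pockets

/-! # MP_c8cc4c_co, part T, file 6: stubs

`Sd k`, `k : Option B`, are the seeds (`Sd none` = the set `O`, `Sd (some b)` = island `b`), `A j`, `j < m`, the
pockets, `y j` a vertex outside `A j` adjacent to `A j`. The stub `T j` joins `y j` to a seed or to an earlier
pocket. -/

open scoped Classical
open Finset

noncomputable section

namespace Pool.Agent.H.MP_c8cc4c_co

variable {V B : Type}

/-- pockets with chosen boundary vertices -/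
structure PkData (G : SimpleGraph V) (Sd : Option B → Set V) (A : ℕ → Set V) (y : ℕ → V)
    (m h : ℕ) : Prop where
  seeds : ∀ k k', k ≠ k' → ∀ x ∈ Sd k, ∀ z ∈ Sd k', ¬ Near G Set.univ (6 * h) x z
  comp : ∀ j < m, IsComp G (Rem G {z | ∃ k, z ∈ Sd k} A (8 * h) (2 * h) j) (A j)
  bd : ∀ j < m, y j ∉ A j ∧ ∃ x ∈ A j, G.Adj x (y j)

/-- `T` is a stub of the pocket number `j` starting at `y`, with target `tg`: a seed (`inl k`) or an
earlier pocket (`inr i`) -/
structure Stub (G : SimpleGraph V) (Sd : Option B → Set V) (A : ℕ → Set V) (m h j : ℕ) (y : V)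
    (T : Set V) (tg : Option B ⊕ ℕ) : Prop where
  conn : ConnOn G T
  mem : y ∈ T
  inl_mem : ∀ k, tg = Sum.inl k → ∀ v ∈ T, ∃ z ∈ Sd k, Near G T (8 * h) v z
  inl_far : ∀ k, tg = Sum.inl k → ∀ v ∈ T, ∀ k', k' ≠ k → ∀ z ∈ Sd k',
    ¬ Near G Set.univ h v z
  inr_mem : ∀ i, tg = Sum.inr i → i < j ∧ ∃ a ∈ T, a ∈ A i
  inr_far : ∀ i, tg = Sum.inr i → ∀ v ∈ T, ∀ k, ∀ z ∈ Sd k, ¬ Near G Set.univ (6 * h) v z
  farA : ∀ v ∈ T, ∀ i < m, i ≠ j → tg ≠ Sum.inr i → ∀ a ∈ A i, ¬ Near G Set.univ h v a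
  reach : ∀ v ∈ T, v ∉ Sd none → Near G (Sd none)ᶜ (8 * h) y v

variable {G : SimpleGraph V} {Sd : Option B → Set V} {A : ℕ → Set V} {y : ℕ → V} {m h j : ℕ}

/-- `y j` is within `8 h` of a seed: take a shortest walk `T` from `y j` to `U = {z | ∃ k, z ∈ Sd k}`
(`shortest_walk` with `d = 8 h`), with end `z ∈ Sd k`, `L ≤ 8 h`; target `inl k`. For `v ∈ T` let `t + t' = L`
be as in `shortest_walk`.
* `inl_mem`: `t' ≤ 8 h`.
* `inl_far`: if `Near h v z'`, `z' ∈ Sd k'`, then `t' ≤ h`, so `z`, `z'` are within `2 h ≤ 6 h`, against `seeds`.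
* `inr_mem`, `inr_far`: nothing to show.
* `farA`: if `Near h v a`, `a ∈ A i`, `i ≠ j`, then `a` is within `h + t'` of `z`, so `h + t' > 8 h` by `pocket_seed`; hence
`t < h` (as `t + t' ≤ 8 h`); for `x ∈ A j` adjacent to `y j` we get `Near (1 + t + h) x a`, and `1 + t + h ≤ 2 h`, against
`pocket_far`.
* `reach`: the last statement of `shortest_walk`, because `w ∈ Sd none → w ∈ U → w = v ∉ Sd none`. -/
theorem stub_direct (hP : PkData G Sd A y m h) (hj : j < m)
    (hy : ∃ z ∈ {z | ∃ k, z ∈ Sd k}, Near G Set.univ (8 * h) (y j) z) :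
    ∃ T tg, Stub G Sd A m h j (y j) T tg := by
  obtain ⟨T, z, L, hL, ⟨k, hzk⟩, hzT, hyT, hconn, hT⟩ :=
    shortest_walk G {z | ∃ k, z ∈ Sd k} (y j) (8 * h) hy
  have huniv : ∀ {n : ℕ} {B : Set V} {a b : V}, Near G B n a b → Near G Set.univ n a b :=
    fun hn => near_mono hn (le_refl _) (Set.subset_univ _)
  refine ⟨T, Sum.inl k, ⟨hconn, hyT, ?_, ?_, ?_, ?_, ?_, ?_⟩⟩
  · intro k' hk' v hv
    obtain rfl : k = k' := Sum.inl.inj hk'
    obtain ⟨t, t', htt, _, h2, _, _⟩ := hT v hv
    exact ⟨z, hzk, near_mono h2 (by omega) (le_refl _)⟩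
  · intro k' hk' v hv k'' hk'' z' hz' hn
    obtain rfl : k = k' := Sum.inl.inj hk'
    obtain ⟨t, t', htt, _, h2, h3, _⟩ := hT v hv
    have h4 := h3 z' ⟨k'', hz'⟩ h hn
    refine hP.seeds k k'' (Ne.symm hk'') z hzk z' hz' ?_
    exact near_mono (near_trans (near_symm (huniv h2)) hn) (by omega) (le_refl _)
  · intro i hi
    exact absurd hi (by simp)
  · intro i hi
    exact absurd hi (by simp)
  · intro v hv i hi hij _ a ha hn
    obtain ⟨t, t', htt, h1, h2, h3, _⟩ := hT v hv
    have h4 : 8 * h < h + t' := by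
      by_contra hcon
      refine pocket_seed hP.comp hi ha (⟨k, hzk⟩ : z ∈ {z | ∃ k, z ∈ Sd k}) ?_
      exact near_mono (near_trans (near_symm hn) (huniv h2)) (by omega) (le_refl _)
    obtain ⟨x, hx, hxy⟩ := (hP.bd j hj).2
    refine pocket_far hP.comp hi hj hij ha hx ?_
    refine near_symm (near_mono (near_trans (near_trans (near_adj (Set.mem_univ _)
      (Set.mem_univ _) hxy) (huniv h1)) hn) (by omega) (le_refl _))
  · intro v hv hvO
    obtain ⟨t, t', htt, _, _, _, h4⟩ := hT v hv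
    refine near_mono h4 (by omega) ?_
    intro w hw hwO
    exact hvO (by rw [← hw ⟨none, hwO⟩]; exact hwO)

/-- `y j` is not within `8 h` of the seeds: by `pocket_bdry` there are `i < j`, `a ∈ A i` with `Near (2 h) (y j) a`.
`T` from `walk_set`, target `inr i`. For `v ∈ T` let `t + t' = 2 h`, `Near T t (y j) v`, `Near T t' v a`.
* `inr_far`: if `z ∈ Sd k` is within `6 h` of `v` then it is within `8 h` of `a ∈ A i`, against `pocket_seed`.
* `farA`: let `Near h v a'`, `a' ∈ A i'`, `i' ≠ j`, `i' ≠ i`. `x ∈ A j` adjacent to `y j` is within `1 + t + h` of `a'`, so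
`1 + t + h > 2 h` (`pocket_far`), `a'` is within `h + t'` of `a`, so `h + t' > 2 h`; the sum gives
`t + t' ≥ 2 h + 1`, a contradiction.
* `reach`: by `inr_far` no vertex of `T` is in `Sd none`. -/
theorem stub_pocket (hP : PkData G Sd A y m h) (hj : j < m)
    (hy : ¬ ∃ z ∈ {z | ∃ k, z ∈ Sd k}, Near G Set.univ (8 * h) (y j) z) :
    ∃ T tg, Stub G Sd A m h j (y j) T tg := by
  obtain ⟨hyA, x, hx, hxy⟩ := hP.bd j hj
  have huniv : ∀ {n : ℕ} {B : Set V} {a b : V}, Near G B n a b → Near G Set.univ n a b :=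
    fun hn => near_mono hn (le_refl _) (Set.subset_univ _)
  rcases pocket_bdry (hP.comp j hj) hx hyA hxy with h1 | ⟨i, hij, a, ha, hya⟩
  · exact absurd h1 hy
  obtain ⟨T, _, hyT, haT, hconn, _, hT⟩ := walk_set hya
  have hfar : ∀ v ∈ T, ∀ k, ∀ z ∈ Sd k, ¬ Near G Set.univ (6 * h) v z := by
    intro v hv k z hz hn
    obtain ⟨t, t', htt, h1, h2, _⟩ := hT v hv
    refine pocket_seed hP.comp (by omega : i < m) ha (⟨k, hz⟩ : z ∈ {z | ∃ k, z ∈ Sd k}) ?_
    exact near_mono (near_trans (near_symm (huniv h2)) hn) (by omega) (le_refl _)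
  refine ⟨T, Sum.inr i, ⟨hconn, hyT, ?_, ?_, ?_, ?_, ?_, ?_⟩⟩
  · intro k hk
    exact absurd hk (by simp)
  · intro k hk
    exact absurd hk (by simp)
  · intro i' hi'
    obtain rfl : i = i' := Sum.inr.inj hi'
    exact ⟨hij, a, haT, ha⟩
  · intro i' hi'
    exact hfar
  · intro v hv i' hi' hi'j hne a' ha' hn
    have hii : i' ≠ i := by
      rintro rfl
      exact hne rfl
    obtain ⟨t, t', htt, h1, h2, _⟩ := hT v hv
    have h3 : 2 * h < 1 + t + h := by
      by_contra hcon
      refine pocket_far hP.comp hj hi' (Ne.symm hi'j) hx ha' ?_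
      exact near_mono (near_trans (near_trans (near_adj (Set.mem_univ _)
        (Set.mem_univ _) hxy) (huniv h1)) hn) (by omega) (le_refl _)
    have h4 : 2 * h < h + t' := by
      by_contra hcon
      refine pocket_far hP.comp hi' (by omega : i < m) hii ha' ha ?_
      exact near_mono (near_trans (near_symm hn) (huniv h2)) (by omega) (le_refl _)
    omega
  · intro v hv _
    obtain ⟨t, t', htt, h1, h2, _⟩ := hT v hv
    refine near_mono h1 (by omega) ?_
    intro w hw hwO
    exact hfar w hw none w hwO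
      (near_mono (near_refl (Set.mem_univ _)) (Nat.zero_le _) (le_refl _))

theorem exists_stubs (hP : PkData G Sd A y m h) : ∃ (T : ℕ → Set V) (tgt : ℕ → Option B ⊕ ℕ),
    ∀ j < m, Stub G Sd A m h j (y j) (T j) (tgt j) := by
  have key : ∀ j, ∃ T : Set V, ∃ tg : Option B ⊕ ℕ, j < m → Stub G Sd A m h j (y j) T tg := by
    intro j
    by_cases hj : j < m
    · by_cases hy : ∃ z ∈ {z | ∃ k, z ∈ Sd k}, Near G Set.univ (8 * h) (y j) z
      · obtain ⟨T, tg, hT⟩ := stub_direct hP hj hy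
        exact ⟨T, tg, fun _ => hT⟩
      · obtain ⟨T, tg, hT⟩ := stub_pocket hP hj hy
        exact ⟨T, tg, fun _ => hT⟩
    · exact ⟨∅, Sum.inr 0, fun h => absurd h hj⟩
  choose T tgt hT using key
  exact ⟨T, tgt, fun j hj => hT j hj⟩

/-- The root of a pocket: follow the targets. Define `rt` by strong recursion on `j` (`Nat.strongRec`, or
`WellFounded.fix`, or prove by induction on `m` that such a function exists with `Function.update`). -/
theorem exists_root (m : ℕ) (tgt : ℕ → Option B ⊕ ℕ)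
    (h : ∀ j < m, ∀ i, tgt j = Sum.inr i → i < j) :
    ∃ rt : ℕ → Option B, (∀ j < m, ∀ k, tgt j = Sum.inl k → rt j = k) ∧
      ∀ j < m, ∀ i, tgt j = Sum.inr i → rt j = rt i := by
  induction m with
  | zero => exact ⟨fun _ => none, fun j hj => absurd hj (Nat.not_lt_zero j),
      fun j hj => absurd hj (Nat.not_lt_zero j)⟩
  | succ m ih =>
    obtain ⟨rt, h1, h2⟩ := ih (fun j hj => h j (by omega))
    refine ⟨Function.update rt m (match tgt m with
      | Sum.inl k => k
      | Sum.inr i => rt i), ?_, ?_⟩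
    · intro j hj k hk
      by_cases hjm : j = m
      · subst hjm
        rw [Function.update_self, hk]
      · rw [Function.update_of_ne hjm]
        exact h1 j (by omega) k hk
    · intro j hj i hi
      have hij := h j hj i hi
      rw [Function.update_of_ne (by omega : i ≠ m)]
      by_cases hjm : j = m
      · subst hjm
        rw [Function.update_self, hi]
      · rw [Function.update_of_ne hjm]
        exact h2 j (by omega) i hi

end Pool.Agent.H.MP_c8cc4c_co
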