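import Mathlib
import Pool.Agent.H.MP_c8cc4c_co.T.Stub

/-! # MP_c8cc4c_co, part T, file 7: bodies -/

open scoped Classical
open Finset

noncomputable section

namespace Pool.Agent.H.MP_c8cc4c_co

variable {V B : Type}

/-- pockets, stubs and roots -/
structure RtData (G : SimpleGraph V) (Sd : Option B → Set V) (A : ℕ → Set V) (y : ℕ → V)
    (m h : ℕ) (T : ℕ → Set V) (tgt : ℕ → Option B ⊕ ℕ) (rt : ℕ → Option B) : Prop where
  pk : PkData G Sd A y m h
  stub : ∀ j < m, Stub G Sd A m h j (y j) (T j) (tgt j)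
  rt_inl : ∀ j < m, ∀ k, tgt j = Sum.inl k → rt j = k
  rt_inr : ∀ j < m, ∀ i, tgt j = Sum.inr i → rt j = rt i

/-- the body of the seed `k` -/
def body (Sd : Option B → Set V) (A T : ℕ → Set V) (rt : ℕ → Option B) (m : ℕ)
    (k : Option B) : Set V :=
  {v | v ∈ Sd k ∨ ∃ j < m, rt j = k ∧ (v ∈ A j ∨ v ∈ T j)}

variable {G : SimpleGraph V} {Sd : Option B → Set V} {A : ℕ → Set V} {y : ℕ → V} {m h : ℕ}
  {T : ℕ → Set V} {tgt : ℕ → Option B ⊕ ℕ} {rt : ℕ → Option B}

/-- Every vertex of `A j ∪ T j` is joined to the seed `rt j` inside the body. Strong induction on `j`: `A j` is connected and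
has a vertex adjacent to `y j ∈ T j`, `T j` is connected and (`inl_mem`) contains a vertex of `Sd k`, `k = rt j`, or (`inr_mem`)
a vertex of `A i` with `i < j`, `rt i = rt j`. -/
theorem body_walk (hR : RtData G Sd A y m h T tgt rt) {j : ℕ} (hj : j < m) {v : V}
    (hv : v ∈ A j ∨ v ∈ T j) :
    ∃ z ∈ Sd (rt j), ∃ n, Near G (body Sd A T rt m (rt j)) n v z := by
  induction j using Nat.strong_induction_on generalizing v with
  | _ j ih =>
    have hTsub : T j ⊆ body Sd A T rt m (rt j) := fun w hw => Or.inr ⟨j, hj, rfl, Or.inr hw⟩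
    have hAsub : A j ⊆ body Sd A T rt m (rt j) := fun w hw => Or.inr ⟨j, hj, rfl, Or.inl hw⟩
    have hst := hR.stub j hj
    have hTcase : ∀ w ∈ T j, ∃ z ∈ Sd (rt j), ∃ n, Near G (body Sd A T rt m (rt j)) n w z := by
      intro w hw
      rcases htg : tgt j with k | i
      · obtain ⟨z, hz, hn⟩ := hst.inl_mem k htg w hw
        rw [← hR.rt_inl j hj k htg] at hz
        exact ⟨z, hz, _, near_mono hn (le_refl _) hTsub⟩
      · obtain ⟨hij, a, haT, haA⟩ := hst.inr_mem i htg
        obtain ⟨z, hz, n, hn⟩ := ih i hij (by omega) (Or.inl haA)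
        rw [← hR.rt_inr j hj i htg] at hz hn
        obtain ⟨n', hn'⟩ := hst.conn.2 w hw a haT
        exact ⟨z, hz, _, near_trans (near_mono hn' (le_refl _) hTsub) hn⟩
    rcases hv with hv | hv
    · obtain ⟨x, hx, hxy⟩ := (hR.pk.bd j hj).2
      obtain ⟨n, hn⟩ := (hR.pk.comp j hj).1.2 v hv x hx
      obtain ⟨z, hz, n', hn'⟩ := hTcase _ hst.mem
      exact ⟨z, hz, _, near_trans (near_trans (near_mono hn (le_refl _) hAsub)
        (near_adj (hAsub hx) (hTsub hst.mem) hxy)) hn'⟩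
    · exact hTcase v hv

theorem body_conn (hR : RtData G Sd A y m h T tgt rt) (hS : ∀ k, ConnOn G (Sd k))
    (k : Option B) : ConnOn G (body Sd A T rt m k) := by
  obtain ⟨z0, hz0⟩ := (hS k).1
  have hsub : Sd k ⊆ body Sd A T rt m k := fun w hw => Or.inl hw
  refine connOn_of_center (hsub hz0) ?_
  intro v hv
  rcases hv with hv | ⟨j, hj, hrt, hv⟩
  · obtain ⟨n, hn⟩ := (hS k).2 z0 hz0 v hv
    exact ⟨n, near_mono hn (le_refl _) hsub⟩
  · subst hrt
    obtain ⟨z, hz, n, hn⟩ := body_walk hR hj hv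
    obtain ⟨n', hn'⟩ := (hS (rt j)).2 z0 hz0 z hz
    exact ⟨_, near_trans (near_mono hn' (le_refl _) hsub) (near_symm hn)⟩

/-- A vertex of the body `k` is joined to the seed `k` inside the body by a walk of length at most `s + 8 h`.
Let `F = {w | ∀ k, ∀ z ∈ Sd k, ¬ Near (6 h) w z}`. If `v ∉ F`: `v` is not in any `A j` (`pocket_seed`, `6 h ≤ 8 h`), and not in any `T j` with
target `inr i` (`inr_far`); so `v ∈ Sd k` or `v ∈ T j` with target `inl k` (`rt j = k`): use `inl_mem`.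
If `v ∈ F`: by `body_walk` `v` is joined inside the body to some `z ∈ Sd k`, `z ∉ F`; `exit_short` gives `w` in the body,
`w ∉ F`, `Near s v w`, and `w` is treated by the first case. -/
theorem body_reach [Fintype V] (hR : RtData G Sd A y m h T tgt rt) (s : ℕ)
    (hs : ∀ Y, ConnOn G Y → (∀ w ∈ Y, ∀ k, ∀ z ∈ Sd k, ¬ Near G Set.univ (6 * h) w z) →
      Y.ncard < s) (k : Option B) {v : V} (hv : v ∈ body Sd A T rt m k) :
    ∃ z ∈ Sd k, Near G (body Sd A T rt m k) (s + 8 * h) v z := by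
  have hnear0 : ∀ (w : V) (n : ℕ), Near G Set.univ n w w := fun w n =>
    near_mono (near_refl (Set.mem_univ _)) (Nat.zero_le _) (le_refl _)
  have hsub : Sd k ⊆ body Sd A T rt m k := fun w hw => Or.inl hw
  have hcase : ∀ w ∈ body Sd A T rt m k,
      w ∉ {w | ∀ k, ∀ z ∈ Sd k, ¬ Near G Set.univ (6 * h) w z} →
      ∃ z ∈ Sd k, Near G (body Sd A T rt m k) (8 * h) w z := by
    intro w hw hwF
    rcases hw with hw | ⟨j, hj, hrt, hw | hw⟩
    · exact ⟨w, hw, near_mono (near_refl (hsub hw)) (Nat.zero_le _) (le_refl _)⟩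
    · exfalso
      apply hwF
      intro k' z hz hn
      exact pocket_seed hR.pk.comp hj hw (⟨k', hz⟩ : z ∈ {z | ∃ k, z ∈ Sd k})
        (near_mono hn (by omega) (le_refl _))
    · rcases htg : tgt j with k' | i
      · have hk : k' = k := by rw [← hR.rt_inl j hj k' htg]; exact hrt
        subst hk
        obtain ⟨z, hz, hn⟩ := (hR.stub j hj).inl_mem k' htg w hw
        refine ⟨z, hz, near_mono hn (le_refl _) ?_⟩
        intro u hu
        exact Or.inr ⟨j, hj, hrt, Or.inr hu⟩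
      · exfalso
        apply hwF
        exact (hR.stub j hj).inr_far i htg w hw
  by_cases hvF : v ∈ {w | ∀ k, ∀ z ∈ Sd k, ¬ Near G Set.univ (6 * h) w z}
  · have hzz : ∃ z ∈ Sd k, ∃ n, Near G (body Sd A T rt m k) n v z := by
      rcases hv with hv | ⟨j, hj, hrt, hv⟩
      · exact absurd (hnear0 v _) (hvF k v hv)
      · subst hrt
        exact body_walk hR hj hv
    obtain ⟨z, hz, n, hn⟩ := hzz
    have hzF : z ∉ {w | ∀ k, ∀ z ∈ Sd k, ¬ Near G Set.univ (6 * h) w z} := fun hmem =>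
      hmem k z hz (hnear0 z _)
    obtain ⟨w, hw, hwF, hvw⟩ := exit_short _ (body Sd A T rt m k) s n
      (fun Y hY hYF => hs Y hY (fun y hy => hYF hy)) hn hvF hzF
    obtain ⟨z', hz', hn'⟩ := hcase w hw hwF
    exact ⟨z', hz', near_trans hvw hn'⟩
  · obtain ⟨z, hz, hn⟩ := hcase v hv hvF
    exact ⟨z, hz, near_mono hn (by omega) (le_refl _)⟩

end Pool.Agent.H.MP_c8cc4c_co
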