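import Mathlib
import Pool.Agent.H.MP_c8cc4c_co.T.Body

/-! # MP_c8cc4c_co, part T, file 7b: different bodies are far apart -/

open scoped Classical
open Finset

noncomputable section

namespace Pool.Agent.H.MP_c8cc4c_co

variable {V B : Type} {G : SimpleGraph V} {Sd : Option B → Set V} {A : ℕ → Set V} {y : ℕ → V}
  {m h : ℕ} {T : ℕ → Set V} {tgt : ℕ → Option B ⊕ ℕ} {rt : ℕ → Option B}

theorem BodyFar_seeds (hR : RtData G Sd A y m h T tgt rt) {k k' : Option B} (hk : k ≠ k')
    {x x' : V} (hx : x ∈ Sd k) (hx' : x' ∈ Sd k') : ¬ Near G Set.univ h x x' :=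
  fun hn => hR.pk.seeds k k' hk x hx x' hx' (near_mono hn (by omega) (le_refl _))

theorem BodyFar_seedA (hR : RtData G Sd A y m h T tgt rt) {k : Option B} {j : ℕ} (hj : j < m)
    {x x' : V} (hx : x ∈ Sd k) (hx' : x' ∈ A j) : ¬ Near G Set.univ h x x' :=
  fun hn => pocket_seed hR.pk.comp hj hx' ⟨k, hx⟩
    (near_mono (near_symm hn) (by omega) (le_refl _))

theorem BodyFar_seedT (hR : RtData G Sd A y m h T tgt rt) {k : Option B} {j : ℕ} (hj : j < m)
    {x x' : V} (hx : x ∈ Sd k) (hx' : x' ∈ T j) (hk : k ≠ rt j) : ¬ Near G Set.univ h x x' := by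
  intro hn
  rcases htg : tgt j with k'' | i
  · have h1 := hR.rt_inl j hj k'' htg
    exact (hR.stub j hj).inl_far k'' htg x' hx' k (by rw [← h1]; exact hk) x hx (near_symm hn)
  · exact (hR.stub j hj).inr_far i htg x' hx' k x hx
      (near_mono (near_symm hn) (by omega) (le_refl _))

theorem BodyFar_AT (hR : RtData G Sd A y m h T tgt rt) {i j : ℕ} (hi : i < m) (hj : j < m)
    (hr : rt i ≠ rt j) {x x' : V} (hx : x ∈ A i) (hx' : x' ∈ T j) :
    ¬ Near G Set.univ h x x' := by
  intro hn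
  have h1 : tgt j ≠ Sum.inr i := fun h1 => hr (hR.rt_inr j hj i h1).symm
  exact (hR.stub j hj).farA x' hx' i hi (fun h2 => hr (by rw [h2])) h1 x hx (near_symm hn)

theorem BodyFar_TT (hR : RtData G Sd A y m h T tgt rt)
    (hy : ∀ i < m, ∀ j < m, i ≠ j → ¬ Near G (Sd none)ᶜ (17 * h) (y i) (y j))
    {i j : ℕ} (hi : i < m) (hj : j < m) (hri : rt i ≠ none) (hij : i ≠ j) {x x' : V}
    (hx : x ∈ T i) (hx' : x' ∈ T j) : ¬ Near G Set.univ h x x' := by
  intro hn
  have h1 : ∀ z ∈ Sd none, ¬ Near G Set.univ h x z := fun z hz hzn =>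
    BodyFar_seedT hR hi hz hx (Ne.symm hri) (near_symm hzn)
  have h2 := near_avoid hn h1
  have h3 := (hR.stub i hi).reach x hx (near_left h2)
  have h4 := (hR.stub j hj).reach x' hx' (near_right h2)
  have h5 := near_trans (near_trans h3 h2) (near_symm h4)
  exact hy i hi j hj hij (near_mono h5 (by omega) (le_refl _))

/-- Different bodies are not within `h`. Let `x` be in the body `k`, `x'` in the body `k'`, `k ≠ k'`, `Near h x x'`. The cases (up to symmetry,
`near_symm`):
* `x ∈ Sd k`, `x' ∈ Sd k'`: `seeds`.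
* `x ∈ Sd k`, `x' ∈ A j`: `pocket_seed`.
* `x ∈ Sd k`, `x' ∈ T j`, `rt j = k'`: if `tgt j = inl k''` then `k'' = k'`, use `inl_far`; if `tgt j = inr i` use `inr_far`.
* `x ∈ A i`, `x' ∈ A j`: `i ≠ j` as `rt i = k ≠ k' = rt j`: `pocket_far`, `h ≤ 2 h`.
* `x ∈ A i`, `x' ∈ T j`: `i ≠ j`, `tgt j ≠ inr i` (otherwise `rt j = rt i`): `farA`.
* `x ∈ T i`, `x' ∈ T j`: by symmetry let `k ≠ none`. By the third case `x` is not within `h` of `Sd none`, so
`near_avoid` gives `Near (Sd none)ᶜ h x x'`; with `reach` for `x` and `x'`: `Near (Sd none)ᶜ (17 h) (y i) (y j)`, against `hy`. -/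
theorem body_far (hR : RtData G Sd A y m h T tgt rt)
    (hy : ∀ i < m, ∀ j < m, i ≠ j → ¬ Near G (Sd none)ᶜ (17 * h) (y i) (y j))
    {k k' : Option B} (hk : k ≠ k') {x x' : V} (hx : x ∈ body Sd A T rt m k)
    (hx' : x' ∈ body Sd A T rt m k') : ¬ Near G Set.univ h x x' := by
  have key : ∀ {k k' : Option B}, k ≠ k' → ∀ {x x' : V}, x ∈ Sd k →
      x' ∈ body Sd A T rt m k' → ¬ Near G Set.univ h x x' := by
    intro k k' hk x x' hx hx'
    rcases hx' with hx' | ⟨j, hj, hr, hx' | hx'⟩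
    · exact BodyFar_seeds hR hk hx hx'
    · exact BodyFar_seedA hR hj hx hx'
    · exact BodyFar_seedT hR hj hx hx' (by rw [hr]; exact hk)
  rcases hx with hx | ⟨i, hi, hri, hx⟩
  · exact key hk hx hx'
  · rcases hx' with hx' | ⟨j, hj, hrj, hx'⟩
    · intro hn
      exact key hk.symm hx' (Or.inr ⟨i, hi, hri, hx⟩) (near_symm hn)
    · have hrr : rt i ≠ rt j := by
        rw [hri, hrj]
        exact hk
      have hij : i ≠ j := fun h => hrr (by rw [h])
      rcases hx with hx | hx
      · rcases hx' with hx' | hx'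
        · intro hn
          exact pocket_far hR.pk.comp hi hj hij hx hx'
            (near_mono hn (by omega) (le_refl _))
        · exact BodyFar_AT hR hi hj hrr hx hx'
      · rcases hx' with hx' | hx'
        · intro hn
          exact BodyFar_AT hR hj hi hrr.symm hx' hx (near_symm hn)
        · by_cases hkn : rt i = none
          · intro hn
            exact BodyFar_TT hR hy hj hi (by rw [← hkn]; exact hrr.symm) hij.symm hx' hx
              (near_symm hn)
          · exact BodyFar_TT hR hy hi hj hkn hij hx hx'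

end Pool.Agent.H.MP_c8cc4c_co
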