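import Mathlib
import Pool.Agent.H.MP_c8cc4c_co.T.Walks

/-! # MP_c8cc4c_co, part T, file 3: islands -/

open scoped Classical
open Finset

noncomputable section

namespace Pool.Agent.H.MP_c8cc4c_co

variable {V : Type} [Fintype V]

/-- A maximal family of islands: connected sets with exactly `s` vertices, not within `d` of `O` and of each
other. Proof: the sets `I : Set (Set V)` of connected sets with `s` vertices, not within `d` of `O`, any two different
ones not within `d`, form a nonempty (`∅`) finite family; take a maximal one for inclusion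
(`Set.Finite.exists_maximal` or similar), `B = I` as a subtype. Last statement: if `Y` is connected, has at least `s` vertices and is
not within `d` of `O` and the islands, take a connected `Y' ⊆ Y` with `s` vertices (`connOn_subset`, `1 ≤ s`); by maximality
`Y' ∈ I`, but a vertex `y ∈ Y'` is `Near d` to itself, contradiction. -/
theorem exists_islands (G : SimpleGraph V) (O : Set V) (s d : ℕ) (hs : 1 ≤ s) :
    ∃ (B : Type) (_ : Fintype B) (Z : B → Set V),
      (∀ b, ConnOn G (Z b)) ∧ (∀ b, (Z b).ncard = s) ∧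
      (∀ b, ∀ x ∈ Z b, ∀ y ∈ O, ¬ Near G Set.univ d x y) ∧
      (∀ b b', b ≠ b' → ∀ x ∈ Z b, ∀ y ∈ Z b', ¬ Near G Set.univ d x y) ∧
      ∀ Y, ConnOn G Y → (∀ y ∈ Y, ∀ z ∈ O, ¬ Near G Set.univ d y z) →
        (∀ y ∈ Y, ∀ b, ∀ z ∈ Z b, ¬ Near G Set.univ d y z) → Y.ncard < s := by
  obtain ⟨P, hP⟩ : ∃ P : Set (Set V) → Prop, ∀ I, P I ↔
      ((∀ X ∈ I, ConnOn G X ∧ X.ncard = s ∧ ∀ x ∈ X, ∀ y ∈ O, ¬ Near G Set.univ d x y) ∧
      ∀ X ∈ I, ∀ Y ∈ I, X ≠ Y → ∀ x ∈ X, ∀ y ∈ Y, ¬ Near G Set.univ d x y) := ⟨_, fun _ => Iff.rfl⟩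
  have hne : ({I | P I} : Set (Set (Set V))).Nonempty :=
    ⟨∅, (hP ∅).mpr ⟨fun X hX => absurd hX (Set.notMem_empty X),
      fun X hX => absurd hX (Set.notMem_empty X)⟩⟩
  obtain ⟨I, hI⟩ := Set.Finite.exists_maximal (Set.toFinite {I | P I}) hne
  have hIP := (hP I).mp hI.1
  refine ⟨{X // X ∈ I}, inferInstance, fun X => X.1, fun b => (hIP.1 b.1 b.2).1,
    fun b => (hIP.1 b.1 b.2).2.1, fun b => (hIP.1 b.1 b.2).2.2, ?_, ?_⟩
  · intro b b' hb
    exact hIP.2 b.1 b.2 b'.1 b'.2 (fun h => hb (Subtype.ext h))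
  · intro Y hY hYO hYI
    by_contra hcon
    push Not at hcon
    obtain ⟨y0, hy0⟩ := hY.1
    obtain ⟨Y', hYY, hY'c, hyY, hY'n⟩ := connOn_subset hY hy0 s hs hcon
    have hins : P (insert Y' I) := by
      rw [hP]
      constructor
      · intro X hX
        rcases Set.mem_insert_iff.mp hX with h | h
        · rw [h]
          exact ⟨hY'c, hY'n, fun x hx y hy => hYO x (hYY hx) y hy⟩
        · exact hIP.1 X h
      · intro X hX X' hX' hne
        rcases Set.mem_insert_iff.mp hX with h | h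
        · rcases Set.mem_insert_iff.mp hX' with h' | h'
          · exact absurd (h.trans h'.symm) hne
          · intro x hx y hy
            rw [h] at hx
            exact hYI x (hYY hx) ⟨X', h'⟩ y hy
        · rcases Set.mem_insert_iff.mp hX' with h' | h'
          · intro x hx y hy hn
            rw [h'] at hy
            exact hYI y (hYY hy) ⟨X, h⟩ x hx (near_symm hn)
          · exact hIP.2 X h X' h' hne
    have hmem : Y' ∈ I := hI.2 hins (Set.subset_insert _ _) (Set.mem_insert _ _)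
    exact hYI y0 hy0 ⟨Y', hmem⟩ y0 hyY
      (near_mono (near_refl (Set.mem_univ _)) (Nat.zero_le _) (le_refl _))

/-- The small case: no connected set with `s` vertices is far from `O`. If `v` is not within `d` of `O`, use
`exit_short` with `F = {w | ∀ z ∈ O, ¬ Near d w z}`, `X = univ`: `v` is `Near s` to some `w ∉ F`. -/
theorem small_case (G : SimpleGraph V) (hG : ∀ x y, ∃ n, Near G Set.univ n x y) (O : Set V)
    (hO : O.Nonempty) (s d : ℕ)
    (h : ∀ Y, ConnOn G Y → (∀ y ∈ Y, ∀ z ∈ O, ¬ Near G Set.univ d y z) → Y.ncard < s) (v : V) :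
    ∃ y ∈ O, Near G Set.univ (d + s) v y := by
  by_cases hv : ∃ z ∈ O, Near G Set.univ d v z
  · obtain ⟨z, hz, hn⟩ := hv
    exact ⟨z, hz, near_mono hn (by omega) (le_refl _)⟩
  · push Not at hv
    obtain ⟨o, ho⟩ := hO
    obtain ⟨n, hn⟩ := hG v o
    have hoF : o ∉ {w | ∀ z ∈ O, ¬ Near G Set.univ d w z} := fun hmem =>
      hmem o ho (near_mono (near_refl (Set.mem_univ _)) (Nat.zero_le _) (le_refl _))
    obtain ⟨w, _, hwF, hw⟩ := exit_short {w | ∀ z ∈ O, ¬ Near G Set.univ d w z} Set.univ s n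
      (fun Y hY hYF => h Y hY (fun y hy => hYF hy)) hn hv hoF
    have hw2 : ∃ z ∈ O, Near G Set.univ d w z := by
      by_contra hcon
      push Not at hcon
      exact hwF hcon
    obtain ⟨z, hz, hwz⟩ := hw2
    exact ⟨z, hz, near_mono (near_trans hw hwz) (by omega) (le_refl _)⟩

end Pool.Agent.H.MP_c8cc4c_co
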