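import Mathlib
import Pool.Agent.H.MP_5bc4af_co.helper5.LLL

/-! # MP_c8cc4c_co, part T, file 1: independent transversals (from the local lemma) -/

open scoped Classical
open Finset

noncomputable section

namespace Pool.Agent.H.MP_c8cc4c_co

/-- Number of functions with two prescribed values. -/
theorem Lll_card_two {J : Type} [Fintype J] (l : ℕ) (a b : J × Fin l) (hab : a.1 ≠ b.1) :
    (univ.filter fun ω : J → Fin l => ω a.1 = a.2 ∧ ω b.1 = b.2).card * l ^ 2 =
      Fintype.card (J → Fin l) := by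
  have h1 : (univ : Finset (J → Fin l)).card =
      ((univ.filter fun ω : J → Fin l => ω a.1 = a.2 ∧ ω b.1 = b.2) ×ˢ
        (univ : Finset (Fin l × Fin l))).card := by
    refine Finset.card_nbij' (fun ω => (Function.update (Function.update ω a.1 a.2) b.1 b.2,
      (ω a.1, ω b.1))) (fun q => Function.update (Function.update q.1 a.1 q.2.1) b.1 q.2.2)
      ?_ ?_ ?_ ?_
    · intro ω _
      simp [Function.update_of_ne hab]
    · intro q _
      simp
    · intro ω _
      funext j
      by_cases hb : j = b.1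
      · subst hb
        simp
      · by_cases ha : j = a.1
        · subst ha
          simp [hb]
        · simp [ha, hb]
    · intro q hq
      have hq' : q.1 a.1 = a.2 ∧ q.1 b.1 = b.2 := by simpa using hq
      refine Prod.ext ?_ ?_
      · funext j
        by_cases hb : j = b.1
        · subst hb
          simp [hq'.2]
        · by_cases ha : j = a.1
          · subst ha
            simp [hb, hq'.1]
          · simp [ha, hb]
      · simp [Function.update_of_ne hab]
  rw [Finset.card_product, Finset.card_univ, Finset.card_univ, Fintype.card_prod,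
    Fintype.card_fin] at h1
  rw [h1]
  ring

/-- Counting the bad events with a given first coordinate set. -/
theorem Lll_count {J Y I : Type} [Fintype J] [Fintype Y] [Fintype I] (conf : Y → Y → Prop) (Δ l : ℕ)
    (c : J → Fin l → Y)
    (hconf : ∀ y, (univ.filter fun y' => conf y y').card ≤ Δ) (f g : I → J × Fin l)
    (hinj : ∀ i i', f i = f i' → c (g i).1 (g i).2 = c (g i').1 (g i').2 → i = i')
    (hfg : ∀ i, conf (c (f i).1 (f i).2) (c (g i).1 (g i).2)) (u v : J) :
    (univ.filter fun i => (f i).1 = u ∨ (f i).1 = v).card ≤ 2 * l * Δ := by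
  set A : Finset (J × Fin l) := ({u, v} : Finset J) ×ˢ (univ : Finset (Fin l)) with hA
  have hAc : A.card ≤ 2 * l := by
    rw [hA, Finset.card_product, Finset.card_univ, Fintype.card_fin]
    exact Nat.mul_le_mul_right _ Finset.card_le_two
  set B : Finset (Σ _a : J × Fin l, Y) := A.sigma fun a => univ.filter fun y' => conf (c a.1 a.2) y'
    with hB
  have hBc : B.card ≤ 2 * l * Δ := by
    rw [hB, Finset.card_sigma]
    calc ∑ a ∈ A, (univ.filter fun y' => conf (c a.1 a.2) y').card ≤ ∑ _a ∈ A, Δ :=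
          Finset.sum_le_sum fun a _ => hconf _
      _ = A.card * Δ := by rw [Finset.sum_const, smul_eq_mul]
      _ ≤ 2 * l * Δ := Nat.mul_le_mul_right _ hAc
  refine le_trans (Finset.card_le_card_of_injOn (t := B)
    (fun i => (⟨f i, c (g i).1 (g i).2⟩ : Σ _a : J × Fin l, Y)) ?_ ?_) hBc
  · intro i hi
    have hi' : (f i).1 = u ∨ (f i).1 = v := by simpa using hi
    have h1 : f i ∈ A := by
      rw [hA, Finset.mem_product]
      exact ⟨by simpa using hi', Finset.mem_univ _⟩
    show (⟨f i, c (g i).1 (g i).2⟩ : Σ _a : J × Fin l, Y) ∈ (B : Set _)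
    rw [Finset.mem_coe, hB, Finset.mem_sigma]
    exact ⟨h1, by simpa using hfg i⟩
  · intro i _ i' _ h
    have h1 : f i = f i' := (Sigma.mk.inj h).1
    have h2 := (Sigma.mk.inj h).2
    exact hinj i i' h1 (eq_of_heq h2)

/-- Independent transversal with classes of equal size `l`. Local lemma
`Pool.Agent.H.MP_5bc4af.H5.local_lemma` (read its statement) for functions `ω : J → Fin l`. The bad events are
indexed by `I = {(a, b) : (J × Fin l) × (J × Fin l) // a.1 ≠ b.1 ∧ conf (c a.1 a.2) (c b.1 b.2)}`, the event is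
`ω a.1 = a.2 ∧ ω b.1 = b.2`, it depends on the coordinates `{a.1, b.1}`, its density is `p = 1 / l ^ 2`
(`Lll_card_two`). An event `(a', b')` whose coordinates meet those of `(a, b)` has `a'.1 ∈ {a.1, b.1}`
(at most `2 l` possible `a'`, and for each at most `Δ` possible `b'`, because `c` is injective on pairs and
`hconf`), or `b'.1 ∈ {a.1, b.1}` (the same with `hsymm`). So `d = 4 * l * Δ ≥ 1` and `4 p d = 16 Δ / l ≤ 1`. -/
theorem transversal_fin {J Y : Type} [Fintype J] [Fintype Y] (conf : Y → Y → Prop)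
    (hsymm : ∀ y y', conf y y' → conf y' y) (Δ l : ℕ) (hΔ : 1 ≤ Δ) (hl : 16 * Δ ≤ l)
    (c : J → Fin l → Y) (hc : ∀ j j' k k', c j k = c j' k' → j = j' ∧ k = k')
    (hconf : ∀ y, (univ.filter fun y' => conf y y').card ≤ Δ) :
    ∃ ω : J → Fin l, ∀ j j', j ≠ j' → ¬ conf (c j (ω j)) (c j' (ω j')) := by
  have hl0 : 0 < l := by omega
  haveI : Nonempty (Fin l) := ⟨⟨0, hl0⟩⟩
  set I := {q : (J × Fin l) × (J × Fin l) // q.1.1 ≠ q.2.1 ∧
    conf (c q.1.1 q.1.2) (c q.2.1 q.2.2)} with hI
  have hlR : (0 : ℝ) < l := by exact_mod_cast hl0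
  have hcc : ∀ a b : J × Fin l, c a.1 a.2 = c b.1 b.2 → a = b := fun a b h => by
    obtain ⟨h1, h2⟩ := hc _ _ _ _ h
    exact Prod.ext h1 h2
  obtain ⟨ω, hω⟩ := Pool.Agent.H.MP_5bc4af.H5.local_lemma (V := J) (K := Fin l) (I := I)
    (fun i ω => ω i.1.1.1 = i.1.1.2 ∧ ω i.1.2.1 = i.1.2.2) (fun i => {i.1.1.1, i.1.2.1})
    (fun i ω ω' h hA => ⟨by rw [← h _ (by simp)]; exact hA.1, by rw [← h _ (by simp)]; exact hA.2⟩)
    (1 / (l : ℝ) ^ 2) (by positivity) (4 * l * Δ)
    (Nat.mul_pos (Nat.mul_pos (by norm_num) hl0) hΔ)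
    (fun i => by
      have h := Lll_card_two l i.1.1 i.1.2 i.2.1
      have h' : ((univ.filter fun ω : J → Fin l => ω i.1.1.1 = i.1.1.2 ∧ ω i.1.2.1 = i.1.2.2).card : ℝ) *
          (l : ℝ) ^ 2 = (Fintype.card (J → Fin l) : ℝ) := by exact_mod_cast h
      rw [← h']
      rw [one_div, mul_comm, mul_assoc, mul_inv_cancel₀ (by positivity), mul_one])
    (fun i => by
      have h1 := Lll_count conf Δ l c hconf (fun j : I => j.1.1) (fun j : I => j.1.2)
        (fun j j' h1 h2 => Subtype.ext (Prod.ext h1 (hcc _ _ h2))) (fun j => j.2.2)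
        i.1.1.1 i.1.2.1
      have h2 := Lll_count conf Δ l c hconf (fun j : I => j.1.2) (fun j : I => j.1.1)
        (fun j j' h1 h2 => Subtype.ext (Prod.ext (hcc _ _ h2) h1))
        (fun j => hsymm _ _ j.2.2) i.1.1.1 i.1.2.1
      refine le_trans (Finset.card_le_card (t := (univ.filter fun j : I =>
        (j.1.1).1 = i.1.1.1 ∨ (j.1.1).1 = i.1.2.1) ∪ (univ.filter fun j : I =>
        (j.1.2).1 = i.1.1.1 ∨ (j.1.2).1 = i.1.2.1)) ?_) ?_
      · intro j hj
        have hj' : ¬ Disjoint ({i.1.1.1, i.1.2.1} : Finset J) {j.1.1.1, j.1.2.1} := by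
          simpa using hj
        rw [Finset.not_disjoint_iff] at hj'
        obtain ⟨x, hx1, hx2⟩ := hj'
        rw [Finset.mem_insert, Finset.mem_singleton] at hx1 hx2
        rw [Finset.mem_union, Finset.mem_filter, Finset.mem_filter]
        rcases hx2 with rfl | rfl
        · exact Or.inl ⟨Finset.mem_univ _, hx1⟩
        · exact Or.inr ⟨Finset.mem_univ _, hx1⟩
      · refine (Finset.card_union_le _ _).trans ((Nat.add_le_add h1 h2).trans (le_of_eq ?_))
        ring)
    (by
      have hlΔ : (16 : ℝ) * Δ ≤ l := by exact_mod_cast hl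
      push_cast
      rw [show 4 * (1 / (l : ℝ) ^ 2) * (4 * l * Δ) = 16 * Δ / l by field_simp; ring]
      rw [div_le_one hlR]
      exact hlΔ)
  refine ⟨ω, fun j j' hne hcf => hω ⟨((j, ω j), (j', ω j')), hne, hcf⟩ ⟨rfl, rfl⟩⟩

/-- Independent transversal of disjoint classes `C j` with at least `l` elements: choose `l` elements of each class
(`Finset.exists_subset_card_eq`, `Finset.equivFin` or `Finset.orderEmbOfFin`) and use `transversal_fin`. -/
theorem transversal {J Y : Type} [Fintype J] [Fintype Y] (conf : Y → Y → Prop)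
    (hsymm : ∀ y y', conf y y' → conf y' y) (Δ l : ℕ) (hΔ : 1 ≤ Δ) (hl : 16 * Δ ≤ l)
    (C : J → Finset Y) (hC : ∀ j, l ≤ (C j).card)
    (hdisj : ∀ j j', j ≠ j' → ∀ y ∈ C j, y ∉ C j')
    (hconf : ∀ y, (univ.filter fun y' => conf y y').card ≤ Δ) :
    ∃ ω : J → Y, (∀ j, ω j ∈ C j) ∧ ∀ j j', j ≠ j' → ¬ conf (ω j) (ω j') := by
  have hS : ∀ j, ∃ S ⊆ C j, S.card = l := fun j => Finset.exists_subset_card_eq (hC j)
  choose S hSC hSl using hS
  set c : J → Fin l → Y := fun j k => (((S j).equivFinOfCardEq (hSl j)).symm k : Y) with hcdef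
  have hcm : ∀ j k, c j k ∈ C j := fun j k => hSC j (((S j).equivFinOfCardEq (hSl j)).symm k).2
  obtain ⟨ω, hω⟩ := transversal_fin conf hsymm Δ l hΔ hl c (by
    intro j j' k k' h
    have hj : j = j' := by
      by_contra hne
      exact hdisj j j' hne _ (hcm j k) (by rw [h]; exact hcm j' k')
    subst hj
    refine ⟨rfl, ?_⟩
    have h' := Subtype.ext h
    exact ((S j).equivFinOfCardEq (hSl j)).symm.injective h') hconf
  exact ⟨fun j => c j (ω j), fun j => hcm j _, hω⟩

end Pool.Agent.H.MP_c8cc4c_co
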