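import Mathlib
import Pool.Agent.H.MP_c8cc4c_co.T.Pockets
import Pool.Agent.H.MP_c8cc4c_co.B.Tau
import Pool.Agent.H.MP_c8cc4c_co.B.ConnF
import Pool.Agent.H.MP_c8cc4c_co.B.Star
import Pool.Agent.H.MP_c8cc4c_co.Iface

/-! # MP_c8cc4c_co, part T, file 5: perimeters (from `LLC`) -/

open scoped Classical
open Finset

noncomputable section

namespace Pool.Agent.H.MP_c8cc4c_co

variable {N : PC}

/-- A large set contains a vertex which is far from the vertices of a short edge chain: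
`(N.vs z).ncard ≤ 2 l` (`vs_card`), so at most `2 l (D+1)^n` vertices are `Near Oᶜ n` to them (`ball_card_set`,
`nbr_card`, `near_symm`). -/
theorem far_vertex (hN : N.IsSphere) (D : ℕ) (hD : ∀ v, N.deg v ≤ D) (A Y : Set N.V) (l n : ℕ)
    (hY : 2 * l * (D + 1) ^ n < Y.ncard) (z : N.E → ZMod 2) (hz : N.wt z ≤ l) :
    ∃ y ∈ Y, ∀ v ∈ N.vs z, ¬ Near N.graph A n y v := by
  by_contra hcon
  push Not at hcon
  have h1 : Y ⊆ ((univ.filter fun y => ∃ x ∈ N.vs z, Near N.graph A n x y : Finset N.V) :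
      Set N.V) := by
    intro y hy
    obtain ⟨v, hv, hn⟩ := hcon y hy
    rw [Finset.mem_coe, Finset.mem_filter]
    exact ⟨mem_univ _, v, hv, near_symm hn⟩
  have h2 := Set.ncard_le_ncard h1 (Finset.finite_toSet _)
  rw [Set.ncard_coe_finset] at h2
  have h3 := ball_card_set (G := N.graph) D (fun v => (nbr_card hN v).trans (hD v)) A n (N.vs z)
  have h4 := vs_card hN z
  have h5 : (N.vs z).ncard * (D + 1) ^ n ≤ 2 * l * (D + 1) ^ n :=
    Nat.mul_le_mul_right _ (h4.trans (Nat.mul_le_mul_left 2 hz))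
  exact absurd hY (not_lt.2 (h2.trans (h3.trans h5)))

/-- A vertex `v` on the boundary of `tau S` is not in `S` and is reached from `S` by a walk of length at most two: an edge
`w u` leaving `S` and a walk of length at most one from `u` to `v`. (`dtau`: `v ∉ S`, `v` is in a face `f` with a vertex `x ∈ S`;
`face_near` gives `Near 2 x v`; `near_exit` with `B = S`.) -/
theorem vs_dtau (hN : N.IsSphere) (hQ : N.Quad) {S : Set N.V} {v : N.V}
    (hv : v ∈ N.vs (N.dF (tau N S))) : v ∉ S ∧ ∃ w u, w ∈ S ∧ u ∉ S ∧ N.graph.Adj w u ∧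
      Near N.graph Set.univ 1 u v := by
  obtain ⟨e, he, hev⟩ := hv
  obtain ⟨h1, f, hf, x, hx, hfx⟩ := dtau hN he
  refine ⟨h1 v hev, ?_⟩
  have h2 : Near N.graph Set.univ 2 x v := face_near hN hQ hfx ⟨e, hf, hev⟩
  obtain ⟨w, u, k, l, hkl, h3, hadj, hu, h4⟩ := near_exit (B := S) h2 hx (h1 v hev)
  exact ⟨w, u, (near_right h3).2, hu, hadj, near_mono h4 (by omega) subset_rfl⟩

/-- Consequence of `LLC` for `c = tau N S`. All faces at `x` have the value `1` (`tau_one`), all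
faces at `y` have the value `0`: if a face at `y` contains `w ∈ S` then `Near 2 w y` (`face_near`), against `hyS`.
`wt (dF c) ≤ 8 * (cut S).card ≤ l` (`wt_dtau`). The vertices of `dF c` are not in `O`: by `vs_dtau` they are within `2` of `S`,
use `hSO`. -/
theorem llc_tau (hN : N.IsSphere) (hQ : N.Quad) (O : Set N.V) (lmax l : ℕ) (ρ : ℕ → ℕ)
    (hL : LLC N O lmax ρ) (hl : l ≤ lmax) (S : Set N.V) (hS : 8 * (N.cut S).card ≤ l)
    (hSO : ∀ x ∈ S, ∀ y ∈ O, ¬ Near N.graph Set.univ 2 x y) (x y : N.V) (hx : x ∈ S)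
    (hyO : y ∉ O) (hyS : ∀ w ∈ S, ¬ Near N.graph Set.univ 2 w y) :
    (∃ v ∈ N.vs (N.dF (tau N S)), Near N.graph Oᶜ (ρ l) x v) ∨
      ∃ v ∈ N.vs (N.dF (tau N S)), Near N.graph Oᶜ (ρ l) y v := by
  refine hL l hl (tau N S) ((wt_dtau hN hQ S).trans hS) ?_ x y ?_ hyO ?_ ?_
  · intro v hv hvO
    obtain ⟨-, w, u, hw, -, hadj, hn⟩ := vs_dtau hN hQ hv
    exact hSO w hw v hvO (near_mono (near_trans (near_adj (Set.mem_univ _) (Set.mem_univ _) hadj)
      hn) le_rfl subset_rfl)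
  · intro hxO
    exact hSO x hx x hxO (near_mono (near_refl (Set.mem_univ _)) (Nat.zero_le _) subset_rfl)
  · intro f hf
    exact tau_one hx hf
  · intro f hf
    refine if_neg ?_
    rintro ⟨w, hw, hfw⟩
    exact hyS w hw (face_near hN hQ hfw hf)

/-- Perimeter of a pocket. Suppose the outer boundary has at most `l0` vertices. Then `(cut (A j)).card ≤ D * l0`
(`cut_card`). Take `y ∈ Y` from `far_vertex` for `z = dF (tau (A j))`, `A = Oᶜ`, `n = ρ l` (`wt_dtau`), and apply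
`llc_tau` with `l = 8 * (D * l0)`, `S = A j`; the vertices of `A j` are not within `d ≥ 2` of `U ⊇ O ∪ Y`. The second
alternative is excluded by the choice of `y`; so there is `v ∈ vs (dF (tau (A j)))` with `Near Oᶜ (ρ l) x v`. By `vs_dtau` there are
`w ∈ A j`, `u ∉ A j` adjacent and `Near 1 u v`; by `pocket_bdry` `u` is `Near d` to `z ∈ U` or `Near R` to some `a ∈ A i`, `i < j`. So `x` is
`Near (ρ l + 1 + d)` to `z` or `Near (ρ l + 1 + R)` to `a`, against `hx'`. -/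
theorem pocket_perim (hN : N.IsSphere) (hQ : N.Quad) (D : ℕ) (hD : ∀ v, N.deg v ≤ D)
    (O : Set N.V) (lmax l0 : ℕ) (ρ : ℕ → ℕ) (hL : LLC N O lmax ρ) (hl : 8 * (D * l0) ≤ lmax)
    (U : Set N.V) (hOU : O ⊆ U) (A : ℕ → Set N.V) (d R rho j : ℕ) (hd : 2 ≤ d)
    (hA : IsComp N.graph (Rem N.graph U A d R j) (A j)) (x : N.V) (hx : x ∈ A j)
    (hx' : x ∈ Rem N.graph U A rho rho j) (hrho : ρ (8 * (D * l0)) + 1 + d ≤ rho)
    (hrho' : ρ (8 * (D * l0)) + 1 + R ≤ rho) (Y : Set N.V) (hYU : Y ⊆ U) (hYO : ∀ y ∈ Y, y ∉ O)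
    (hY : 2 * (8 * (D * l0)) * (D + 1) ^ ρ (8 * (D * l0)) < Y.ncard) :
    l0 < (univ.filter fun y => y ∉ A j ∧ ∃ x ∈ A j, N.graph.Adj x y).card := by
  by_contra hcon
  rw [not_lt] at hcon
  have hcut : 8 * (N.cut (A j)).card ≤ 8 * (D * l0) :=
    Nat.mul_le_mul_left 8 ((cut_card hN D hD (A j)).trans (Nat.mul_le_mul_left D hcon))
  obtain ⟨y, hy, hyfar⟩ := far_vertex hN D hD Oᶜ Y (8 * (D * l0)) (ρ (8 * (D * l0))) hY
    (N.dF (tau N (A j))) ((wt_dtau hN hQ (A j)).trans hcut)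
  have hfar : ∀ w ∈ A j, ∀ z ∈ U, ¬ Near N.graph Set.univ 2 w z := fun w hw z hz hn =>
    (hA.2.1 hw).1 z hz (near_mono hn hd subset_rfl)
  rcases llc_tau hN hQ O lmax (8 * (D * l0)) ρ hL hl (A j) hcut
    (fun w hw z hz => hfar w hw z (hOU hz)) x y hx (hYO y hy)
    (fun w hw => hfar w hw y (hYU hy)) with ⟨v, hv, hn⟩ | ⟨v, hv, hn⟩
  · obtain ⟨-, w, u, hw, hu, hadj, huv⟩ := vs_dtau hN hQ hv
    have h1 : Near N.graph Set.univ (ρ (8 * (D * l0)) + 1) x u :=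
      near_trans (near_mono hn le_rfl (Set.subset_univ _)) (near_symm huv)
    rcases pocket_bdry hA hw hu hadj with ⟨z, hz, h2⟩ | ⟨i, hi, a, ha, h2⟩
    · exact hx'.1 z hz (near_mono (near_trans h1 h2) hrho subset_rfl)
    · exact hx'.2 i hi a ha (near_mono (near_trans h1 h2) hrho' subset_rfl)
  · exact hyfar v hv hn

/-- Perimeter of a union of cells. Suppose `8 * (cut S).card ≤ l`; take `x ∈ X`, `y ∈ Y` by `far_vertex` and use `llc_tau`. -/
theorem cluster_perim (hN : N.IsSphere) (hQ : N.Quad) (D : ℕ) (hD : ∀ v, N.deg v ≤ D)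
    (O : Set N.V) (lmax l : ℕ) (ρ : ℕ → ℕ) (hL : LLC N O lmax ρ) (hl : l ≤ lmax) (S : Set N.V)
    (hSO : ∀ x ∈ S, ∀ y ∈ O, ¬ Near N.graph Set.univ 2 x y) (X Y : Set N.V) (hX : X ⊆ S)
    (hYO : ∀ y ∈ Y, y ∉ O) (hYS : ∀ y ∈ Y, ∀ w ∈ S, ¬ Near N.graph Set.univ 2 w y)
    (hXc : 2 * l * (D + 1) ^ ρ l < X.ncard) (hYc : 2 * l * (D + 1) ^ ρ l < Y.ncard) :
    l < 8 * (N.cut S).card := by
  by_contra hcon
  rw [not_lt] at hcon
  have hz := (wt_dtau hN hQ S).trans hcon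
  obtain ⟨x, hx, hxfar⟩ := far_vertex hN D hD Oᶜ X l (ρ l) hXc (N.dF (tau N S)) hz
  obtain ⟨y, hy, hyfar⟩ := far_vertex hN D hD Oᶜ Y l (ρ l) hYc (N.dF (tau N S)) hz
  rcases llc_tau hN hQ O lmax l ρ hL hl S hcon hSO x y (hX hx) (hYO y hy) (hYS y hy) with
    ⟨v, hv, hn⟩ | ⟨v, hv, hn⟩
  · exact hxfar v hv hn
  · exact hyfar v hv hn

end Pool.Agent.H.MP_c8cc4c_co
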