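import Mathlib
import Pool.Agent.H.MP_c8cc4c_co.T.Lll
import Pool.Agent.H.MP_c8cc4c_co.T.Islands
import Pool.Agent.H.MP_c8cc4c_co.T.Perim
import Pool.Agent.H.MP_c8cc4c_co.T.BodyFar

/-! # MP_c8cc4c_co, part T, file 8: existence of the bodies -/

open scoped Classical
open Finset

noncomputable section

namespace Pool.Agent.H.MP_c8cc4c_co

/-- The bodies `X k`, `k : Option B`; `X none` contains `O`, `X (some b)` contains the island `Z b`. -/
structure BodiesOut (N : PC) (O : Set N.V) (h s s3 t rho1 : ℕ) where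
  B : Type
  [finB : Fintype B]
  [neB : Nonempty B]
  Z : B → Set N.V
  X : Option B → Set N.V
  O_sub : O ⊆ X none
  Z_sub : ∀ b, Z b ⊆ X (some b)
  Z_conn : ∀ b, ConnOn N.graph (Z b)
  Z_card : ∀ b, (Z b).ncard = s
  X_conn : ∀ k, ConnOn N.graph (X k)
  far : ∀ k k', k ≠ k' → ∀ x ∈ X k, ∀ y ∈ X k', ¬ Near N.graph Set.univ h x y
  X_card : ∀ b, (X (some b)).ncard ≤ s3
  reach : ∀ x ∈ X none, ∃ y ∈ O, Near N.graph (X none) t x y
  cover : ∀ v, ∃ k, ∃ x ∈ X k, Near N.graph Set.univ rho1 v x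

attribute [instance] BodiesOut.finB BodiesOut.neB

/-- the seeds -/
def seed {V B : Type} (O : Set V) (Z : B → Set V) : Option B → Set V
  | none => O
  | some b => Z b

variable {N : PC}

/-- Choice of the boundary vertices of the pockets. `J = Fin m`, `C j` = outer boundary of `A j`
(`univ.filter fun y => y ∉ A j ∧ ∃ x ∈ A j, Adj x y`), `conf y y' = Near Oᶜ (17 h) y y'`, `Δ = (D + 1) ^ (17 h)`
(`ball_card`, `nbr_card`); the classes are disjoint: a common vertex would give `a ∈ A i`, `a' ∈ A j`, `Near 2 a a'`,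
against `pocket_far` (`2 ≤ 2 h`). Apply `transversal` and extend the choice to `ℕ` (`if hj : j < m then .. else` any vertex;
if `m = 0` the statement is trivial but needs a vertex: `hN.nonempty`). -/
theorem choose_y (hN : N.IsSphere) (D : ℕ) (hD : ∀ v, N.deg v ≤ D) (O U : Set N.V)
    (A : ℕ → Set N.V) (m h l0 : ℕ) (hh : 1 ≤ h) (hl0 : 16 * (D + 1) ^ (17 * h) ≤ l0)
    (hA : ∀ j < m, IsComp N.graph (Rem N.graph U A (8 * h) (2 * h) j) (A j))
    (hp : ∀ j < m, l0 < (univ.filter fun y => y ∉ A j ∧ ∃ x ∈ A j, N.graph.Adj x y).card) :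
    ∃ y : ℕ → N.V, (∀ j < m, y j ∉ A j ∧ ∃ x ∈ A j, N.graph.Adj x (y j)) ∧
      ∀ i < m, ∀ j < m, i ≠ j → ¬ Near N.graph Oᶜ (17 * h) (y i) (y j) := by
  have hnbr : ∀ v, (univ.filter fun u => N.graph.Adj v u).card ≤ D := fun v =>
    (nbr_card hN v).trans (hD v)
  obtain ⟨ω, h1, h2⟩ := transversal (J := Fin m) (Y := N.V)
    (fun y y' => Near N.graph Oᶜ (17 * h) y y') (fun _ _ hn => near_symm hn)
    ((D + 1) ^ (17 * h)) l0 (Nat.one_le_pow _ _ (by omega)) hl0
    (fun j => univ.filter fun y => y ∉ A j ∧ ∃ x ∈ A j, N.graph.Adj x y)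
    (fun j => (hp j j.2).le) (by
      intro j j' hjj y hy hy'
      obtain ⟨-, -, x, hx, hxy⟩ := Finset.mem_filter.1 hy
      obtain ⟨-, -, x', hx', hxy'⟩ := Finset.mem_filter.1 hy'
      refine pocket_far hA j.2 j'.2 (fun h3 => hjj (Fin.ext h3)) hx hx' ?_
      refine near_mono (near_trans (near_adj (Set.mem_univ _) (Set.mem_univ _) hxy)
        (near_adj (Set.mem_univ _) (Set.mem_univ _) hxy'.symm)) (by omega) (le_refl _))
    (fun y => ball_card D hnbr Oᶜ (17 * h) y)
  obtain ⟨v0⟩ := hN.nonempty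
  have hy : ∀ j (hj : j < m), (if hj : j < m then ω ⟨j, hj⟩ else v0) = ω ⟨j, hj⟩ :=
    fun j hj => dif_pos hj
  refine ⟨fun j => if hj : j < m then ω ⟨j, hj⟩ else v0, ?_, ?_⟩
  · intro j hj
    have h3 := (Finset.mem_filter.1 (h1 ⟨j, hj⟩)).2
    simp only [hy j hj]
    exact h3
  · intro i hi j hj hij
    simp only [hy j hj, hy i hi]
    exact h2 ⟨i, hi⟩ ⟨j, hj⟩ fun h3 => hij (congrArg Fin.val h3)

/-- Existence of the bodies. `exists_islands` with `d = 6 h` (`1 ≤ s` by `hs`). If `B` is empty use `small_case`.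
Otherwise let `Sd = seed O Z`, `U = {z | ∃ k, z ∈ Sd k}`; `exists_pockets` with `d = 8 h`, `R = 2 h`, `rho = rho1`;
`pocket_perim` for every `j < m` with `Y = Z b` for some `b` (`Z b ⊆ U`, `Z b` is disjoint from `O` because
its vertices are not `Near (6 h)` to `O`; `(Z b).ncard = s`); `choose_y`; `exists_stubs`, `exists_root`. `X k = body Sd A T rt m k`.
`far`: `body_far`; `X_conn`: `body_conn`; `reach`: `body_reach` for `k = none` (`hs` of `body_reach` = last
property of `exists_islands`); `X_card`: every vertex of the body is `Near (s + 8 h)` to a vertex of `Z b` (`body_reach`),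
so there are at most `s (D+1)^(s + 8 h)` of them (`ball_card_set`). `cover`: `v ∉ Rem .. m`, so `v` is within `rho1` of `U` or of some
`A i`, `i < m`. -/
theorem bodies_out (D h l0 rho1 s lmax : ℕ) (ρ : ℕ → ℕ) (hh : 1 ≤ h)
    (hl0 : 16 * (D + 1) ^ (17 * h) ≤ l0) (hlm : 8 * (D * l0) ≤ lmax)
    (hrho : ρ (8 * (D * l0)) + 1 + 8 * h ≤ rho1)
    (hs : 2 * (8 * (D * l0)) * (D + 1) ^ ρ (8 * (D * l0)) < s) (hN : N.IsSphere) (hQ : N.Quad)
    (hD : ∀ v, N.deg v ≤ D) (O : Set N.V) (hO : ConnOn N.graph O) (hL : LLC N O lmax ρ) :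
    (∀ v, ∃ y ∈ O, Near N.graph Set.univ (6 * h + s) v y) ∨
      Nonempty (BodiesOut N O h s (s * (D + 1) ^ (s + 8 * h)) (s + 8 * h) rho1) := by
  have hnbr : ∀ v, (univ.filter fun u => N.graph.Adj v u).card ≤ D := fun v =>
    (nbr_card hN v).trans (hD v)
  obtain ⟨B, hB, Z, hZ1, hZ2, hZ3, hZ4, hZ5⟩ := exists_islands N.graph O s (6 * h) (by omega)
  rcases isEmpty_or_nonempty B with hE | hne
  · left
    intro v
    exact small_case N.graph hN.conn O hO.1 s (6 * h)
      (fun Y hY hYO => hZ5 Y hY hYO fun y _ b => hE.elim b) v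
  right
  obtain ⟨b0⟩ := hne
  obtain ⟨Sd, hSd⟩ : ∃ Sd : Option B → Set N.V, Sd = seed O Z := ⟨_, rfl⟩
  have hS0 : Sd none = O := by rw [hSd]; rfl
  have hS1 : ∀ b, Sd (some b) = Z b := fun b => by rw [hSd]; rfl
  obtain ⟨m, A, hA1, hA2, hA3⟩ := exists_pockets N.graph {z | ∃ k, z ∈ Sd k} (8 * h) (2 * h) rho1
    (by omega) (by omega)
  have hOU : O ⊆ {z | ∃ k, z ∈ Sd k} := fun v hv => ⟨none, by rw [hS0]; exact hv⟩
  have hZU : ∀ b, Z b ⊆ {z | ∃ k, z ∈ Sd k} := fun b v hv => ⟨some b, by rw [hS1]; exact hv⟩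
  have hrefl : ∀ (n : ℕ) (v : N.V), Near N.graph Set.univ n v v := fun n v =>
    near_mono (near_refl (Set.mem_univ _)) (Nat.zero_le _) (le_refl _)
  have hp : ∀ j < m,
      l0 < (univ.filter fun y => y ∉ A j ∧ ∃ x ∈ A j, N.graph.Adj x y).card := by
    intro j hj
    obtain ⟨x, hx, hx'⟩ := hA2 j hj
    exact pocket_perim hN hQ D hD O lmax l0 ρ hL hlm {z | ∃ k, z ∈ Sd k} hOU A (8 * h) (2 * h)
      rho1 j (by omega) (hA1 j hj) x hx hx' (by omega) (by omega) (Z b0) (hZU b0)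
      (fun y hy hyO => hZ3 b0 y hy y hyO (hrefl _ _)) (by rw [hZ2]; exact hs)
  obtain ⟨y, hy1, hy2⟩ := choose_y hN D hD O {z | ∃ k, z ∈ Sd k} A m h l0 hh hl0 hA1 hp
  have hPk : PkData N.graph Sd A y m h := by
    refine ⟨?_, hA1, hy1⟩
    intro k k' hk x hx z hz hn
    rcases k with _ | b
    · rcases k' with _ | b'
      · exact hk rfl
      · rw [hS0] at hx
        rw [hS1] at hz
        exact hZ3 b' z hz x hx (near_symm hn)
    · rcases k' with _ | b'
      · rw [hS1] at hx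
        rw [hS0] at hz
        exact hZ3 b x hx z hz hn
      · rw [hS1] at hx hz
        exact hZ4 b b' (fun h3 => hk (by rw [h3])) x hx z hz hn
  obtain ⟨T, tgt, hT⟩ := exists_stubs hPk
  obtain ⟨rt, hrt1, hrt2⟩ := exists_root m tgt fun j hj i hi => ((hT j hj).inr_mem i hi).1
  have hR : RtData N.graph Sd A y m h T tgt rt := ⟨hPk, hT, hrt1, hrt2⟩
  have hs' : ∀ Y, ConnOn N.graph Y →
      (∀ w ∈ Y, ∀ k, ∀ z ∈ Sd k, ¬ Near N.graph Set.univ (6 * h) w z) → Y.ncard < s := by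
    intro Y hY hYs
    refine hZ5 Y hY (fun y hy z hz => hYs y hy none z (by rw [hS0]; exact hz))
      (fun y hy b z hz => hYs y hy (some b) z (by rw [hS1]; exact hz))
  have hSc : ∀ k, ConnOn N.graph (Sd k) := by
    intro k
    rcases k with _ | b
    · rw [hS0]
      exact hO
    · rw [hS1]
      exact hZ1 b
  exact ⟨{
    B := B
    finB := hB
    neB := ⟨b0⟩
    Z := Z
    X := fun k => body Sd A T rt m k
    O_sub := fun v hv => Or.inl (by rw [hS0]; exact hv)
    Z_sub := fun b v hv => Or.inl (by rw [hS1]; exact hv)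
    Z_conn := hZ1
    Z_card := hZ2
    X_conn := fun k => body_conn hR hSc k
    far := fun k k' hk x hx y' hy' => body_far hR (by rw [hS0]; exact hy2) hk hx hy'
    X_card := by
      intro b
      have h1 := ball_card_set D hnbr Set.univ (s + 8 * h) (Z b)
      rw [hZ2] at h1
      refine le_trans ?_ h1
      rw [Set.ncard_eq_toFinset_card']
      refine Finset.card_le_card ?_
      intro v hv
      rw [Set.mem_toFinset] at hv
      obtain ⟨z, hz, hn⟩ := body_reach hR s hs' (some b) hv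
      rw [hS1] at hz
      exact Finset.mem_filter.2 ⟨Finset.mem_univ _, z, hz,
        near_symm (near_mono hn (le_refl _) (Set.subset_univ _))⟩
    reach := by
      intro x hx
      obtain ⟨z, hz, hn⟩ := body_reach hR s hs' none hx
      exact ⟨z, by rw [← hS0]; exact hz, hn⟩
    cover := by
      intro v
      by_contra hcon
      push Not at hcon
      refine hA3 v ⟨?_, ?_⟩
      · rintro z ⟨k, hz⟩ hn
        exact hcon k z (Or.inl hz) hn
      · intro i hi a ha hn
        exact hcon (rt i) a (Or.inr ⟨i, hi, rfl, Or.inl ha⟩) hn }⟩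

end Pool.Agent.H.MP_c8cc4c_co
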