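import Mathlib
import Pool.Agent.H.MP_c8cc4c_co.T.Walks

/-! # MP_c8cc4c_co, part T, file 9: cells -/

open scoped Classical
open Finset

noncomputable section

namespace Pool.Agent.H.MP_c8cc4c_co

variable {V K : Type}

/-- `own` assigns every vertex to a nearest set `X k`; if `v` is within `n` of some `X k` then there is a walk of length
`≤ n` from `v` to `X (own v)` inside the cell of `v`, which meets `X (own v)` only at its end. -/
def IsOwn (G : SimpleGraph V) (X : K → Set V) (own : V → K) : Prop :=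
  (∀ k, ∀ v ∈ X k, own v = k) ∧
  ∀ (v : V) (n : ℕ) (k : K) (y : V), y ∈ X k → Near G Set.univ n v y →
    ∃ y' ∈ X (own v), Near G {w | own w = own v ∧ (w ∈ X (own v) → w = y')} n v y'

/-- Let `U = {y | ∃ k, y ∈ X k}` and `d v = sdist G univ U v`. By `sdist_down` choose `p : V → V` with `p v` adjacent to `v` and
`d (p v) + 1 = d v` if `0 < d v`, `p v = v` if `d v = 0`. The vertex `r v = p^[d v] v` has `d (r v) = 0`, so it is in `U`
(`sdist_zero`); `own v` = some `k` with `r v ∈ X k` (unique by `hd`). `r (p v) = r v`, so `own (p v) = own v`. If `Near n v y` with `y ∈ X k` then `d v ≤ n`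
(`sdist_le`), so it is enough to find a walk of length `≤ d v`: induction on `d v` with `y' = r v`; if `0 < d v` then `v ∉ U`. -/
theorem exists_own [Fintype V] (G : SimpleGraph V) (hG : ∀ x y, ∃ n, Near G Set.univ n x y)
    (X : K → Set V) (hne : ∃ k, (X k).Nonempty) (hd : ∀ k k' v, v ∈ X k → v ∈ X k' → k = k') :
    ∃ own : V → K, IsOwn G X own := by
  obtain ⟨k0, x0, hx0⟩ := hne
  obtain ⟨U, hU⟩ : ∃ U : Set V, ∀ v, v ∈ U ↔ ∃ k, v ∈ X k := ⟨{v | ∃ k, v ∈ X k}, fun _ => Iff.rfl⟩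
  have hex : ∀ v, ∃ l ∈ U, ∃ k, Near G Set.univ k v l := by
    intro v
    obtain ⟨n, hn⟩ := hG v x0
    exact ⟨x0, (hU x0).2 ⟨k0, hx0⟩, n, hn⟩
  obtain ⟨d, hdd⟩ : ∃ d : V → ℕ, ∀ v, d v = sdist G Set.univ U v := ⟨_, fun _ => rfl⟩
  have hd0 : ∀ v, d v = 0 ↔ v ∈ U := by
    intro v
    rw [hdd, sdist_zero U (hex v)]
    exact ⟨fun h => h.1, fun h => ⟨h, Set.mem_univ v⟩⟩
  have hp : ∃ p : V → V, ∀ v, 0 < d v → G.Adj v (p v) ∧ d (p v) + 1 = d v := by
    have h1 : ∀ v, ∃ y, 0 < d v → G.Adj v y ∧ d y + 1 = d v := by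
      intro v
      by_cases h : 0 < d v
      · obtain ⟨y, -, h2, h3⟩ := sdist_down U (hex v) (by rw [← hdd]; exact h)
        exact ⟨y, fun _ => ⟨h2, by rw [hdd, hdd]; exact h3⟩⟩
      · exact ⟨v, fun h' => absurd h' h⟩
    choose p hp using h1
    exact ⟨p, hp⟩
  obtain ⟨p, hp⟩ := hp
  obtain ⟨r, hr0, hrs⟩ : ∃ r : V → V, (∀ v, d v = 0 → r v = v) ∧
      ∀ v, 0 < d v → r (p v) = r v := by
    refine ⟨fun v => p^[d v] v, fun v hv => ?_, fun v hv => ?_⟩
    · simp only [hv, Function.iterate_zero, id]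
    · simp only
      obtain ⟨-, h2⟩ := hp v hv
      rw [← h2, Function.iterate_succ_apply]
  have hrU : ∀ n v, d v = n → r v ∈ U := by
    intro n
    induction n with
    | zero => intro v hv; rw [hr0 v hv]; exact (hd0 v).1 hv
    | succ n ih =>
      intro v hv
      have h1 : 0 < d v := by omega
      rw [← hrs v h1]
      exact ih (p v) (by have := (hp v h1).2; omega)
  have hf : ∃ f : V → K, ∀ v ∈ U, v ∈ X (f v) := by
    have h1 : ∀ v, ∃ k, v ∈ U → v ∈ X k := by
      intro v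
      by_cases h : v ∈ U
      · obtain ⟨k, hk⟩ := (hU v).1 h
        exact ⟨k, fun _ => hk⟩
      · exact ⟨k0, fun h' => absurd h' h⟩
    choose f hf using h1
    exact ⟨f, hf⟩
  obtain ⟨f, hf⟩ := hf
  have key : ∀ n v, d v = n →
      Near G {w | f (r w) = f (r v) ∧ (w ∈ X (f (r v)) → w = r v)} n v (r v) := by
    intro n
    induction n with
    | zero =>
      intro v hv
      have h1 := hr0 v hv
      have h2 : v ∈ {w | f (r w) = f (r v) ∧ (w ∈ X (f (r v)) → w = r v)} :=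
        ⟨rfl, fun _ => h1.symm⟩
      exact near_zero.2 ⟨h1.symm, h2⟩
    | succ n ih =>
      intro v hv
      have h1 : 0 < d v := by omega
      obtain ⟨h2, h3⟩ := hp v h1
      have h4 := ih (p v) (by omega)
      rw [hrs v h1] at h4
      refine near_succ.2 (Or.inr ⟨⟨rfl, fun h5 => ?_⟩, p v, h2, h4⟩)
      have h6 : d v = 0 := (hd0 v).2 ((hU v).2 ⟨_, h5⟩)
      omega
  refine ⟨fun v => f (r v), ?_, ?_⟩
  · intro k v hv
    have h1 : v ∈ U := (hU v).2 ⟨k, hv⟩
    have h2 : r v = v := hr0 v ((hd0 v).2 h1)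
    have h3 : f (r v) = k := by
      rw [h2]
      exact hd _ _ v (hf v h1) hv
    exact h3
  · intro v n k y hy hn
    refine ⟨r v, hf _ (hrU _ v rfl), near_mono (key _ v rfl) ?_ le_rfl⟩
    rw [hdd]
    exact sdist_le U ((hU y).2 ⟨k, hy⟩) hn

variable {G : SimpleGraph V} {X : K → Set V} {own : V → K} {h r : ℕ}

/-- A vertex within `r` of `X k` is in the cell of `k`, if the sets are not within `2 r`: `IsOwn` gives `y' ∈ X (own v)` within `r`
of `v`. -/
theorem own_near (ho : IsOwn G X own)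
    (hfar : ∀ k k', k ≠ k' → ∀ x ∈ X k, ∀ y ∈ X k', ¬ Near G Set.univ h x y) (hr : 2 * r ≤ h)
    {v y : V} {k : K} (hy : y ∈ X k) (hv : Near G Set.univ r v y) : own v = k := by
  by_contra hne
  obtain ⟨y', hy', h1⟩ := ho.2 v r k y hy hv
  have h2 : Near G Set.univ r y' v := near_symm (near_mono h1 le_rfl (Set.subset_univ _))
  exact hfar _ _ hne y' hy' y hy (near_mono (near_trans h2 hv) (by omega) le_rfl)

/-- Cells are connected: every vertex of the cell is joined to `X k` inside the cell, and `X k` is connected. -/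
theorem cell_conn (hG : ∀ x y, ∃ n, Near G Set.univ n x y) (ho : IsOwn G X own)
    (hX : ∀ k, ConnOn G (X k)) (k : K) : ConnOn G {v | own v = k} := by
  obtain ⟨x0, hx0⟩ := (hX k).1
  refine connOn_of_center (x := x0) (ho.1 k x0 hx0) fun v hv => ?_
  obtain ⟨n, hn⟩ := hG v x0
  have hv' : own v = k := hv
  obtain ⟨y', hy', h1⟩ := ho.2 v n k x0 hx0 hn
  rw [hv'] at hy' h1
  obtain ⟨m, hm⟩ := (hX k).2 y' hy' x0 hx0
  refine ⟨n + m, near_symm (near_trans (near_mono h1 le_rfl fun w hw => hw.1)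
    (near_mono hm le_rfl fun w hw => ho.1 k w hw))⟩

end Pool.Agent.H.MP_c8cc4c_co
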