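import Mathlib
import Pool.Agent.H.MP_c8cc4c_co.T.Bodies
import Pool.Agent.H.MP_c8cc4c_co.T.Voronoi

/-! # MP_c8cc4c_co, part T, file 12: arms and perimeters of unions of cells -/

open scoped Classical
open Finset

noncomputable section

namespace Pool.Agent.H.MP_c8cc4c_co

variable {N : PC} {O : Set N.V} {h s s3 t rho1 : ℕ}

/-- `P` is an arm of the vertex `x`: a small connected set from `x` to its body (to `O` if its body is `X none`) inside
the cell of `x`. -/
structure Arm (Bo : BodiesOut N O h s s3 t rho1) (own : N.V → Option Bo.B) (x : N.V)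
    (P : Set N.V) : Prop where
  conn : ConnOn N.graph P
  mem : x ∈ P
  card : P.ncard ≤ rho1 + 1 + (t + 1)
  cell : ∀ w ∈ P, own w = own x
  toX : ∀ b, own x = some b → P.ncard ≤ rho1 + 1 ∧ ∃ y ∈ P, y ∈ Bo.X (some b)
  toO : own x = none → ∃ y ∈ P, y ∈ O
  reach : ∀ w ∈ P, w ∈ Bo.X none ∨ Near N.graph Oᶜ rho1 x w

/-- By `Bo.cover` and `IsOwn` there is `y' ∈ X (own x)` and a walk of length `≤ rho1` from `x` to `y'` in
`{w | own w = own x ∧ (w ∈ X (own x) → w = y')}`; let `T` be the set of `walk_set`.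
Case `own x = some b`: `P = T`; no vertex of `T` is in `O ⊆ X none` (those have `own = none`).
Case `own x = none`: by `Bo.reach` there is a walk of length `≤ t` in `X none` from `y'` to some `o ∈ O`; `T'` = the set of `walk_set`;
`P = T ∪ T'` (`connOn_union`, common vertex `y'`). `reach`: `w ∈ T'` is in `X none`; for `w ∈ T`, `w ∉ X none` we have `w ≠ y'`, so by
`walk_set` `Near (T \ {y'}) _ x w`, and the vertices of `T` other than `y'` are not in `X none ⊇ O`. -/
theorem exists_arm (Bo : BodiesOut N O h s s3 t rho1) (own : N.V → Option Bo.B)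
    (ho : IsOwn N.graph Bo.X own) (x : N.V) : ∃ P, Arm Bo own x P := by
  obtain ⟨k, y, hy, hxy⟩ := Bo.cover x
  obtain ⟨y', hy', hn⟩ := ho.2 x rho1 k y hy hxy
  obtain ⟨T, hTsub, hxT, hyT, hTc, hTcard, hT⟩ := walk_set hn
  have hOown : ∀ w ∈ O, own w = none := fun w hw => ho.1 none w (Bo.O_sub hw)
  rcases hox : own x with _ | b
  · have hy'' : y' ∈ Bo.X none := by rw [← hox]; exact hy'
    obtain ⟨o, hoO, hn2⟩ := Bo.reach y' hy''
    obtain ⟨T', hT'sub, hyT', hoT', hT'c, hT'card, hT'⟩ := walk_set hn2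
    refine ⟨T ∪ T', connOn_union hTc hT'c ⟨y', hyT, hyT'⟩, Or.inl hxT, ?_, ?_, ?_, ?_, ?_⟩
    · exact (Set.ncard_union_le _ _).trans (by omega)
    · rintro w (hw | hw)
      · exact (hTsub hw).1
      · rw [hox]; exact ho.1 none w (hT'sub hw)
    · intro b hb
      rw [hox] at hb
      exact absurd hb (by simp)
    · intro _
      exact ⟨o, Or.inr hoT', hoO⟩
    · rintro w (hw | hw)
      · by_cases hwX : w ∈ Bo.X none
        · exact Or.inl hwX
        · right
          obtain ⟨t1, t2, htt, _, _, h3⟩ := hT w hw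
          have hwy : w ≠ y' := by rintro rfl; exact hwX hy''
          refine near_mono (h3 hwy) (by omega) ?_
          rintro u ⟨huT, huy⟩ huO
          have h4 := (hTsub huT).2
          rw [hox] at h4
          exact huy (h4 (Bo.O_sub huO))
      · exact Or.inl (hT'sub hw)
  · refine ⟨T, hTc, hxT, by omega, ?_, ?_, ?_, ?_⟩
    · intro w hw
      exact (hTsub hw).1
    · intro b' hb'
      exact ⟨hTcard, y', hyT, by rw [← hb']; exact hy'⟩
    · intro hcon
      rw [hox] at hcon
      exact absurd hcon (by simp)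
    · intro w hw
      right
      obtain ⟨t1, t2, htt, h1, _, _⟩ := hT w hw
      refine near_mono h1 (by omega) ?_
      intro u hu huO
      have h4 := (hTsub hu).1
      rw [hOown u huO, hox] at h4
      exact absurd h4 (by simp)

/-- Perimeter of a union of cells. `cluster_perim` with `l := 8 * (5 * l)`, `S := {v | own v ∈ S}`, `X = Z b` for
`some b ∈ S`, `Y = Z b'` for `some b' ∉ S`. `hSO`: if `own x ∈ S` and `x` is within `2` of `O ⊆ X none` then `own x = none`
(`own_near`, `2 * 2 ≤ h`). `Z b ⊆ X (some b)`, so `own = some b` there. `Z b'` is disjoint from `O` (`Bo.far`, distance `0`).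
`hYS`: if `w` is within `2` of `y ∈ Z b' ⊆ X (some b')` then `own w = some b'`. -/
theorem cells_perim (hN : N.IsSphere) (hQ : N.Quad) (D : ℕ) (hD : ∀ v, N.deg v ≤ D) (lmax l : ℕ)
    (ρ : ℕ → ℕ) (hL : LLC N O lmax ρ) (hl : 8 * (5 * l) ≤ lmax)
    (Bo : BodiesOut N O h s s3 t rho1) (own : N.V → Option Bo.B) (ho : IsOwn N.graph Bo.X own)
    (hh : 4 ≤ h) (hs : 2 * (8 * (5 * l)) * (D + 1) ^ ρ (8 * (5 * l)) < s)
    (S : Set (Option Bo.B)) (h0 : none ∉ S) (h1 : ∃ b, some b ∈ S) (h2 : ∃ b, some b ∉ S) :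
    5 * l ≤ (N.cut {v | own v ∈ S}).card := by
  obtain ⟨b, hb⟩ := h1
  obtain ⟨b', hb'⟩ := h2
  have hdisj : ∀ y ∈ Bo.Z b', y ∉ O := by
    intro y hy hyO
    exact Bo.far (some b') none (by simp) y (Bo.Z_sub b' hy) y (Bo.O_sub hyO)
      (near_mono (near_refl (Set.mem_univ _)) (Nat.zero_le _) (le_refl _))
  have key := cluster_perim hN hQ D hD O lmax (8 * (5 * l)) ρ hL hl {v | own v ∈ S}
    (by
      intro x hx y hy hn
      have h3 := own_near ho Bo.far (by omega : 2 * 2 ≤ h) (Bo.O_sub hy) hn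
      have hx' : own x ∈ S := hx
      rw [h3] at hx'
      exact h0 hx')
    (Bo.Z b) (Bo.Z b')
    (by
      intro x hx
      have h3 : own x = some b := ho.1 _ _ (Bo.Z_sub b hx)
      have : own x ∈ S := by rw [h3]; exact hb
      exact this)
    hdisj
    (by
      intro y hy w hw hn
      have h3 := own_near ho Bo.far (by omega : 2 * 2 ≤ h) (Bo.Z_sub b' hy) hn
      have hw' : own w ∈ S := hw
      rw [h3] at hw'
      exact hb' hw')
    (by rw [Bo.Z_card]; exact hs) (by rw [Bo.Z_card]; exact hs)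
  omega

/-- Number of edges with an end near an end of `e`: two ends of `e`, at most `(D+1)^n` vertices near each
(`ball_card`, `nbr_card`), at most `D` edges at each. -/
theorem edge_conf_card (hN : N.IsSphere) (D : ℕ) (hD : ∀ v, N.deg v ≤ D) (A : Set N.V) (n : ℕ)
    (e : N.E) : (univ.filter fun e' => ∃ x y, N.inc e x ∧ N.inc e' y ∧
      Near N.graph A n x y).card ≤ 2 * (D + 1) ^ (n + 1) := by
  obtain ⟨u, v, huv, hends⟩ := hN.inc_two e
  have hnb : ∀ w, (univ.filter fun z => N.graph.Adj w z).card ≤ D := fun w =>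
    (nbr_card hN w).trans (hD w)
  have hball : ∀ w, (univ.filter fun e' => ∃ y, N.inc e' y ∧
      Near N.graph A n w y).card ≤ (D + 1) ^ (n + 1) := by
    intro w
    have hsub : (univ.filter fun e' => ∃ y, N.inc e' y ∧ Near N.graph A n w y) ⊆
        (univ.filter fun y => Near N.graph A n w y).biUnion
          (fun y => univ.filter fun e' => N.inc e' y) := by
      intro e' he'
      obtain ⟨y, hy1, hy2⟩ := (Finset.mem_filter.mp he').2
      exact Finset.mem_biUnion.mpr ⟨y, Finset.mem_filter.mpr ⟨Finset.mem_univ _, hy2⟩,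
        Finset.mem_filter.mpr ⟨Finset.mem_univ _, hy1⟩⟩
    have h1 := Finset.card_le_card hsub
    have h2 := h1.trans (Finset.card_biUnion_le_card_mul _ _ D (fun y _ => hD y))
    have h3 := ball_card D hnb A n w
    calc _ ≤ _ := h2
      _ ≤ (D + 1) ^ n * (D + 1) := Nat.mul_le_mul h3 (by omega)
      _ = (D + 1) ^ (n + 1) := by ring
  have hsub : (univ.filter fun e' => ∃ x y, N.inc e x ∧ N.inc e' y ∧ Near N.graph A n x y) ⊆
      (univ.filter fun e' => ∃ y, N.inc e' y ∧ Near N.graph A n u y) ∪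
      (univ.filter fun e' => ∃ y, N.inc e' y ∧ Near N.graph A n v y) := by
    intro e' he'
    obtain ⟨x, y, hx, hy, hn⟩ := (Finset.mem_filter.mp he').2
    rcases (hends x).mp hx with rfl | rfl
    · exact Finset.mem_union_left _ (Finset.mem_filter.mpr ⟨Finset.mem_univ _, y, hy, hn⟩)
    · exact Finset.mem_union_right _ (Finset.mem_filter.mpr ⟨Finset.mem_univ _, y, hy, hn⟩)
  have h1 := (Finset.card_le_card hsub).trans (Finset.card_union_le _ _)
  have h2 := hball u
  have h3 := hball v
  omega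

end Pool.Agent.H.MP_c8cc4c_co
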