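import Mathlib
import Pool.Agent.H.MP_c8cc4c_co.B.Star
import Pool.Agent.H.MP_c8cc4c_co.B.Conn
import Pool.Agent.H.MP_c8cc4c_co.Iface

/-! # MP_c8cc4c_co, part T, file 10: contraction of the cells

`own : N.V → Option B` assigns the cell, `g : Option B → I` is a partition of the set of cells into classes.
The output is a sequence of disjoint large sets `θ i`, `i < q`, of edges between different classes, such that every
choice of one edge in each `θ i` connects all classes (`root = true`), or all classes except the cell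
`none`, which is then a class of its own and is not touched by the edges (`root = false`). -/

open scoped Classical
open Finset

noncomputable section

namespace Pool.Agent.H.MP_c8cc4c_co

def ContrOut {N : PC} {B I : Type} (own : N.V → Option B) (g : Option B → I) (l : ℕ) : Prop :=
  ∃ (root : Bool) (q : ℕ) (θ : ℕ → Finset N.E),
    (∀ i < q, l ≤ (θ i).card) ∧
    (∀ i < q, ∀ j < q, i ≠ j → ∀ e ∈ θ i, e ∉ θ j) ∧
    (∀ i < q, ∀ e ∈ θ i, ∀ x y, N.inc e x → N.inc e y → x ≠ y → g (own x) ≠ g (own y)) ∧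
    (root = false → (∀ b, g (some b) ≠ g none) ∧
      ∀ i < q, ∀ e ∈ θ i, ∀ x, N.inc e x → own x ≠ none) ∧
    ∀ ε : ℕ → N.E, (∀ i < q, ε i ∈ θ i) → ∀ S : Set (Option B),
      (∀ k k', g k = g k' → k ∈ S → k' ∈ S) →
      (∀ i < q, ∀ x y, N.inc (ε i) x → N.inc (ε i) y → own x ∈ S → own y ∈ S) →
      (∀ b b', some b ∈ S → some b' ∈ S) ∧
      (root = true → ∀ b, (some b ∈ S → none ∈ S) ∧ (none ∈ S → some b ∈ S))

variable {N : PC} {B I : Type} [Fintype I] {own : N.V → Option B} {g : Option B → I} {l : ℕ}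

/-- The end of the process, `q = 0`. If `I` has at most one element then `g` is constant: `root = true`. Otherwise
`root = false`. -/
theorem contr_base (h : Fintype.card I < 2 ∨
    ∀ b b', g (some b) = g (some b') ∧ g (some b) ≠ g none) : ContrOut own g l := by
  rcases h with h | h
  · have hsub : Subsingleton I := Fintype.card_le_one_iff_subsingleton.1 (by omega)
    refine ⟨true, 0, fun _ => ∅, by omega, by omega, by omega, fun h0 => absurd h0 (by simp),
      fun ε _ S hS _ => ⟨fun b b' hb => hS _ _ (Subsingleton.elim _ _) hb,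
        fun _ b => ⟨fun hb => hS _ _ (Subsingleton.elim _ _) hb,
          fun hb => hS _ _ (Subsingleton.elim _ _) hb⟩⟩⟩
  · refine ⟨false, 0, fun _ => ∅, by omega, by omega, by omega,
      fun _ => ⟨fun b => (h b b).2, by omega⟩,
      fun ε _ S hS _ => ⟨fun b b' hb => hS _ _ (h b b').1 hb, fun h0 => absurd h0 (by simp)⟩⟩

/-- The edges between the classes `P` and `P'`. -/
def between (own : N.V → Option B) (g : Option B → I) (P P' : I) : Finset N.E :=
  univ.filter fun e => ∃ x y, N.inc e x ∧ N.inc e y ∧ g (own x) = P ∧ g (own y) = P'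

/-- Choice of the pair to be merged. Apply `hE5` to `cls v = g (own v)` and `star = g none`: there is `P ≠ g none` with at most five
neighbours. Let `S = {k | g k = P}`. `none ∉ S`. The class `P` contains a vertex `v`, `own v ≠ none`, so
`own v = some b` with `some b ∈ S`. Not all `some b'` are in `S`: otherwise all `g (some b)` are `P ≠ g none`, against `h2`. So
`5 l ≤ |cut {v | own v ∈ S}|`. Every edge of the cut has an end in the class `P` and an end in another class, which is a
neighbour of `P` (`inc_adj`). Pigeonhole (`Finset.exists_le_card_fiber_of_mul_le_card_of_maps_to`; there is a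
neighbour because `l ≥ 1`): for some `P'` at least `l` edges of the cut have their other end in `P'`. -/
theorem pick_pair (hE5 : E5Stmt) (hN : N.IsSphere) (hl : 1 ≤ l)
    (hper : ∀ S : Set (Option B), none ∉ S → (∃ b, some b ∈ S) → (∃ b, some b ∉ S) →
      5 * l ≤ (N.cut {v | own v ∈ S}).card)
    (hc : ∀ i, ConnOn N.graph {v | g (own v) = i}) (h1 : 2 ≤ Fintype.card I)
    (h2 : ¬ ∀ b b', g (some b) = g (some b') ∧ g (some b) ≠ g none) :
    ∃ P P', P ≠ g none ∧ P' ≠ P ∧ l ≤ (between own g P P').card := by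
  obtain ⟨P, hP, h5⟩ := hE5 N hN I (fun v => g (own v)) hc (g none) h1
  have hS1 : (none : Option B) ∉ {k | g k = P} := fun h => hP h.symm
  have hS2 : ∃ b, some b ∈ {k | g k = P} := by
    obtain ⟨v, hv⟩ := (hc P).1
    have hv' : g (own v) = P := hv
    rcases ho : own v with _ | b
    · rw [ho] at hv'
      exact absurd hv'.symm hP
    · exact ⟨b, by rw [ho] at hv'; exact hv'⟩
  have hS3 : ∃ b, some b ∉ {k | g k = P} := by
    by_contra hcon
    push Not at hcon
    have h3 : ∀ b, g (some b) = P := hcon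
    exact h2 fun b b' => ⟨by rw [h3, h3], by rw [h3]; exact hP⟩
  have h6 := hper {k | g k = P} hS1 hS2 hS3
  have h7 : ∀ e ∈ N.cut {v | own v ∈ {k | g k = P}}, ∃ Q : I, Q ≠ P ∧
      ∃ x y, N.inc e x ∧ N.inc e y ∧ g (own x) = P ∧ g (own y) = Q := by
    intro e he
    obtain ⟨-, ⟨x, hx, hxS⟩, y, hy, hyS⟩ := Finset.mem_filter.1 he
    exact ⟨g (own y), hyS, x, y, hx, hy, hxS, rfl⟩
  have : Nonempty I := ⟨P⟩
  choose! f hf1 hf2 using h7
  have hmaps : ∀ e ∈ N.cut {v | own v ∈ {k | g k = P}}, f e ∈ (univ.filter fun P' => P' ≠ P ∧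
      ∃ x y, N.graph.Adj x y ∧ g (own x) = P ∧ g (own y) = P') := by
    intro e he
    obtain ⟨x, y, hx, hy, hgx, hgy⟩ := hf2 e he
    refine Finset.mem_filter.2 ⟨Finset.mem_univ _, hf1 e he, x, y, ⟨?_, e, hx, hy⟩, hgx, hgy⟩
    rintro rfl
    exact hf1 e he (hgy.symm.trans hgx)
  have hne : (N.cut {v | own v ∈ {k | g k = P}}).Nonempty := by
    rw [← Finset.card_pos]
    omega
  obtain ⟨e0, he0⟩ := hne
  have hmul : (univ.filter fun P' => P' ≠ P ∧
      ∃ x y, N.graph.Adj x y ∧ g (own x) = P ∧ g (own y) = P').card * l ≤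
      (N.cut {v | own v ∈ {k | g k = P}}).card :=
    (Nat.mul_le_mul_right l h5).trans h6
  obtain ⟨P', hP', hl'⟩ := Finset.exists_le_card_fiber_of_mul_le_card_of_maps_to hmaps
    ⟨f e0, hmaps e0 he0⟩ hmul
  refine ⟨P, P', hP, (Finset.mem_filter.1 hP').2.1, hl'.trans (Finset.card_le_card ?_)⟩
  intro e he
  obtain ⟨he1, he2⟩ := Finset.mem_filter.1 he
  obtain ⟨x, y, hx, hy, hgx, hgy⟩ := hf2 e he1
  exact Finset.mem_filter.2 ⟨Finset.mem_univ _, x, y, hx, hy, hgx, hgy.trans he2⟩

end Pool.Agent.H.MP_c8cc4c_co
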