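import Mathlib
import Pool.Agent.H.MP_c8cc4c_co.T.Contract

/-! # MP_c8cc4c_co, part T, file 10b: merging two classes -/

open scoped Classical
open Finset

noncomputable section

namespace Pool.Agent.H.MP_c8cc4c_co

variable {N : PC} {B I : Type} [Fintype I] {own : N.V → Option B} {g : Option B → I} {l : ℕ}

omit [Fintype I] in
/-- the ends of an edge between two classes -/
theorem contractM_ends (hN : N.IsSphere) {P P' : I} (hP : P' ≠ P) {e : N.E}
    (he : e ∈ between own g P P') : ∃ x y, x ≠ y ∧ N.inc e x ∧ N.inc e y ∧ g (own x) = P ∧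
      g (own y) = P' ∧ ∀ v, N.inc e v → v = x ∨ v = y := by
  obtain ⟨-, x, y, hx, hy, hgx, hgy⟩ := Finset.mem_filter.1 he
  have hxy : x ≠ y := by
    rintro rfl
    exact hP (hgy.symm.trans hgx)
  obtain ⟨y', -, -, hall⟩ := other_end hN hx
  have hyy : y = y' := by
    rcases hall y hy with h | h
    · exact absurd h.symm hxy
    · exact h
  refine ⟨x, y, hxy, hx, hy, hgx, hgy, fun v hv => ?_⟩
  rw [hyy]
  exact hall v hv

/-- The merged classes are connected: the class of `P'` is the union of the old classes `P`, `P'`, which are joined by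
an edge (`connOn_union_adj`, `inc_adj`); the other classes do not change. -/
theorem merge_conn (hN : N.IsSphere) (hl : 1 ≤ l)
    (hc : ∀ i, ConnOn N.graph {v | g (own v) = i}) {P P' : I} (hP : P' ≠ P)
    (hθ : l ≤ (between own g P P').card) (g' : Option B → {i : I // i ≠ P})
    (hg' : ∀ k, (g' k : I) = if g k = P then P' else g k) (i : {i : I // i ≠ P}) :
    ConnOn N.graph {v | g' (own v) = i} := by
  by_cases hi : i.1 = P'
  · have hset : {v | g' (own v) = i} = {v | g (own v) = P} ∪ {v | g (own v) = P'} := by
      ext v
      simp only [Set.mem_setOf_eq, Set.mem_union]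
      rw [Subtype.ext_iff, hg', hi]
      by_cases h : g (own v) = P
      · simp [h]
      · simp [h]
    rw [hset]
    obtain ⟨e, he⟩ := Finset.card_pos.1 (lt_of_lt_of_le (by omega : 0 < l) hθ)
    obtain ⟨x, y, hxy, hx, hy, hgx, hgy, -⟩ := contractM_ends hN hP he
    exact connOn_union_adj (hc P) (hc P') ⟨x, hgx, y, hgy, inc_adj hN hx hy hxy⟩
  · have hset : {v | g' (own v) = i} = {v | g (own v) = i.1} := by
      ext v
      simp only [Set.mem_setOf_eq]
      rw [Subtype.ext_iff, hg']
      by_cases h : g (own v) = P
      · rw [if_pos h]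
        constructor
        · intro h2
          exact absurd h2.symm hi
        · intro h2
          exact absurd (h2.symm.trans h) i.2
      · rw [if_neg h]
    rw [hset]
    exact hc i.1

/-- Going back from the merged partition. New sequence: `between own g P P'` first, then the `θ i` of the merged
partition. The edges of `between own g P P'` have exactly two ends `x, y` (`hN.inc_two`), with `g (own x) = P`, `g (own y) = P'`,
so `g' (own x) = g' (own y)`: they are not in the other `θ i` (third property). `g' (own x) ≠ g' (own y)` implies `g (own x) ≠ g (own y)`.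
If `root = false`: `g' (some b) ≠ g' none` for all `b`, so `g (some b) ≠ g none`; for an edge as above `own x ≠ none` as `P ≠ g none`; if
`own y = none` then `P' = g none`, `g' none` has the value `P'` (as `g none ≠ P`) and so has `g' (own x)`, `own x = some b`, a
contradiction. Last property: `S` is closed for `g`; the first edge joins class `P` to class `P'`, so
`S` is closed for `g'`: if `g' k = g' k'` then `g k = g k'` or `{g k, g k'} = {P, P'}`. Shift `ε` by one. -/
theorem merge_out (hN : N.IsSphere) {P P' : I} (hP : P' ≠ P) (hPn : P ≠ g none)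
    (hθ : l ≤ (between own g P P').card) (g' : Option B → {i : I // i ≠ P})
    (hg' : ∀ k, (g' k : I) = if g k = P then P' else g k) (h : ContrOut own g' l) :
    ContrOut own g l := by
  obtain ⟨root, q, θ, h1, h2, h3, h4, h5⟩ := h
  have hgg : ∀ k k', g k = g k' → g' k = g' k' := by
    intro k k' hk
    rw [Subtype.ext_iff, hg', hg', hk]
  have hPv : ∀ k, g k = P → (g' k : I) = P' := by
    intro k hk
    rw [hg', if_pos hk]
  have hPv' : ∀ k, g k = P' → (g' k : I) = P' := by
    intro k hk
    rw [hg', hk, if_neg hP]
  have hnot : ∀ e ∈ between own g P P', ∀ i < q, e ∉ θ i := by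
    intro e he i hi hei
    obtain ⟨x, y, hxy, hx, hy, hgx, hgy, -⟩ := contractM_ends hN hP he
    apply h3 i hi e hei x y hx hy hxy
    rw [Subtype.ext_iff, hPv _ hgx, hPv' _ hgy]
  let θ' : ℕ → Finset N.E := fun i => Nat.casesOn i (between own g P P') θ
  have hθ0 : θ' 0 = between own g P P' := rfl
  have hθs : ∀ i, θ' (i + 1) = θ i := fun i => rfl
  refine ⟨root, q + 1, θ', ?_, ?_, ?_, ?_, ?_⟩
  · intro i hi
    rcases i with _ | i
    · exact hθ
    · exact h1 i (by omega)
  · intro i hi j hj hij e he
    rcases i with _ | i
    · rcases j with _ | j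
      · exact absurd rfl hij
      · exact hnot e he j (by omega)
    · rcases j with _ | j
      · intro he'
        exact hnot e he' i (by omega) he
      · exact h2 i (by omega) j (by omega) (by omega) e he
  · intro i hi e he x y hx hy hxy
    rcases i with _ | i
    · obtain ⟨x0, y0, hxy0, hx0, hy0, hgx, hgy, hall⟩ := contractM_ends hN hP he
      rcases hall x hx with rfl | rfl <;> rcases hall y hy with rfl | rfl
      · exact absurd rfl hxy
      · rw [hgx, hgy]
        exact hP.symm
      · rw [hgx, hgy]
        exact hP
      · exact absurd rfl hxy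
    · intro hcon
      exact h3 i (by omega) e he x y hx hy hxy (hgg _ _ hcon)
  · intro hroot
    obtain ⟨h41, h42⟩ := h4 hroot
    refine ⟨fun b hb => h41 b (hgg _ _ hb), ?_⟩
    intro i hi e he x hx
    rcases i with _ | i
    · obtain ⟨x0, y0, hxy0, hx0, hy0, hgx, hgy, hall⟩ := contractM_ends hN hP he
      have hx0n : own x0 ≠ none := by
        intro hcon
        apply hPn
        rw [← hgx, hcon]
      rcases hall x hx with rfl | rfl
      · exact hx0n
      · intro hcon
        obtain ⟨b, hb⟩ := Option.ne_none_iff_exists'.1 hx0n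
        apply h41 b
        rw [Subtype.ext_iff, ← hb, ← hcon, hPv _ hgx, hPv' _ hgy]
    · exact h42 i (by omega) e he x hx
  · intro ε hε S hS hεS
    have he0 : ε 0 ∈ between own g P P' := hε 0 (by omega)
    obtain ⟨x0, y0, hxy0, hx0, hy0, hgx, hgy, -⟩ := contractM_ends hN hP he0
    have hf := hεS 0 (by omega) x0 y0 hx0 hy0
    have hb := hεS 0 (by omega) y0 x0 hy0 hx0
    have hPS : ∀ k k', g k = P → g k' = P' → k ∈ S → k' ∈ S := by
      intro k k' hk hk' hkS
      exact hS (own y0) k' (hgy.trans hk'.symm) (hf (hS k (own x0) (hk.trans hgx.symm) hkS))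
    have hPS' : ∀ k k', g k = P' → g k' = P → k ∈ S → k' ∈ S := by
      intro k k' hk hk' hkS
      exact hS (own x0) k' (hgx.trans hk'.symm) (hb (hS k (own y0) (hk.trans hgy.symm) hkS))
    refine h5 (fun i => ε (i + 1)) (fun i hi => hε (i + 1) (by omega)) S ?_
      (fun i hi => hεS (i + 1) (by omega))
    intro k k' hkk hkS
    rw [Subtype.ext_iff, hg', hg'] at hkk
    by_cases h6 : g k = P
    · by_cases h7 : g k' = P
      · exact hS k k' (h6.trans h7.symm) hkS
      · rw [if_pos h6, if_neg h7] at hkk
        exact hPS k k' h6 hkk.symm hkS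
    · by_cases h7 : g k' = P
      · rw [if_neg h6, if_pos h7] at hkk
        exact hPS' k k' hkk h7 hkS
      · rw [if_neg h6, if_neg h7] at hkk
        exact hS k k' hkk hkS

end Pool.Agent.H.MP_c8cc4c_co
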