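import Mathlib
import Pool.Agent.H.MP_c8cc4c_co.T.ContractM

/-! # MP_c8cc4c_co, part T, file 11: contraction of the cells, induction -/

open scoped Classical
open Finset

noncomputable section

namespace Pool.Agent.H.MP_c8cc4c_co

variable {N : PC} {B : Type} {own : N.V → Option B} {l : ℕ}

/-- Induction on `n = card I`. If `card I < 2` or all `g (some b)` are equal and different from `g none` use `contr_base`. Otherwise
`pick_pair` gives `P`, `P'`; define `g' k = ⟨if g k = P then P' else g k, _⟩`, use `merge_conn`, the induction hypothesis for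
`{i // i ≠ P}` (with `n - 1` elements) and `merge_out`. -/
theorem contraction (hE5 : E5Stmt) (hN : N.IsSphere) (hl : 1 ≤ l)
    (hper : ∀ S : Set (Option B), none ∉ S → (∃ b, some b ∈ S) → (∃ b, some b ∉ S) →
      5 * l ≤ (N.cut {v | own v ∈ S}).card) (n : ℕ) :
    ∀ (I : Type) [Fintype I] (g : Option B → I), Fintype.card I = n →
      (∀ i, ConnOn N.graph {v | g (own v) = i}) → ContrOut own g l := by
  induction n with
  | zero =>
    intro I _ g hI hc
    exact contr_base (Or.inl (by omega))
  | succ n ih =>
    intro I _ g hI hc
    by_cases h1 : Fintype.card I < 2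
    · exact contr_base (Or.inl h1)
    by_cases h2 : ∀ b b', g (some b) = g (some b') ∧ g (some b) ≠ g none
    · exact contr_base (Or.inr h2)
    obtain ⟨P, P', hPn, hP, hθ⟩ := pick_pair hE5 hN hl hper hc (by omega) h2
    let g' : Option B → {i : I // i ≠ P} := fun k => ⟨if g k = P then P' else g k, by
      split_ifs with h
      · exact hP
      · exact h⟩
    have hg' : ∀ k, (g' k : I) = if g k = P then P' else g k := fun k => rfl
    have hcard : Fintype.card {i : I // i ≠ P} = n := by
      have h3 := Set.card_ne_eq P
      have h4 : Fintype.card {i : I // i ≠ P} = Fintype.card I - 1 := by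
        rw [← h3]
        rfl
      omega
    exact merge_out hN hP hPn hθ g' hg' (ih _ g' hcard (merge_conn hN hl hc hP hθ g' hg'))

end Pool.Agent.H.MP_c8cc4c_co
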