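import Mathlib
import Pool.Agent.H.MP_c8cc4c_co.T.Arm
import Pool.Agent.H.MP_c8cc4c_co.T.Contract2

/-! # MP_c8cc4c_co, part T, file 13: doors -/

open scoped Classical
open Finset

noncomputable section

namespace Pool.Agent.H.MP_c8cc4c_co

variable {N : PC} {O : Set N.V} {h s s3 t rho1 : ℕ}

/-- The doors `D q`; `rel q a b`: the door `q` exists and joins the bodies `a` and `b`. -/
structure Doors (Bo : BodiesOut N O h s s3 t rho1) (r1 : ℕ) (root : Bool) (D : ℕ → Set N.V)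
    (rel : ℕ → Option Bo.B → Option Bo.B → Prop) : Prop where
  rel_symm : ∀ q a b, rel q a b → rel q b a
  rel_ends : ∀ q a b a' b', rel q a b → rel q a' b' → (a = a' ∧ b = b') ∨ (a = b' ∧ b = a')
  rel_root : root = false → ∀ q a b, rel q a b → a ≠ none
  closed : ∀ S : Set (Option Bo.B), (∀ q a b, rel q a b → a ∈ S → b ∈ S) →
    (∀ b b', some b ∈ S → some b' ∈ S) ∧
    (root = true → ∀ b, (some b ∈ S → none ∈ S) ∧ (none ∈ S → some b ∈ S))
  D_conn : ∀ q a b, rel q a b → ConnOn N.graph (D q)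
  D_card : ∀ q a b, rel q a b → (D q).ncard ≤ 2 * (rho1 + 1 + (t + 1))
  D_card' : ∀ q a b, rel q a b → a ≠ none → b ≠ none → (D q).ncard ≤ 2 * (rho1 + 1)
  D_X : ∀ q c b, rel q (some c) b → ∃ x ∈ D q, x ∈ Bo.X (some c)
  D_O : ∀ q b, rel q none b → ∃ x ∈ D q, x ∈ O
  D_far : ∀ q a b, rel q a b → ∀ k, k ≠ a → k ≠ b → ∀ x ∈ D q, ∀ y ∈ Bo.X k,
    ¬ Near N.graph Set.univ (2 * r1 + 1) x y
  D_D : ∀ q a b q' a' b', rel q a b → rel q' a' b' → q ≠ q' → a ≠ none → b ≠ none →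
    ∀ x ∈ D q, ∀ y ∈ D q', ¬ Near N.graph Set.univ (2 * r1 + 1) x y

/-- an edge has exactly two ends -/
theorem Doors_ends (hN : N.IsSphere) {e : N.E} {x y : N.V} (hxy : x ≠ y) (hx : N.inc e x)
    (hy : N.inc e y) {v : N.V} (hv : N.inc e v) : v = x ∨ v = y := by
  obtain ⟨a, b, hab, h⟩ := hN.inc_two e
  rcases (h x).1 hx with rfl | rfl <;> rcases (h y).1 hy with rfl | rfl
  · exact absurd rfl hxy
  · exact (h v).1 hv
  · exact ((h v).1 hv).symm
  · exact absurd rfl hxy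

/-- The doors from the chosen edges `ε q` and the arms `P x`: `D q = {w | ∃ x, inc (ε q) x ∧ w ∈ P x}`,
`rel q a b = q < m ∧ ∃ x y, inc (ε q) x ∧ inc (ε q) y ∧ x ≠ y ∧ own x = a ∧ own y = b`.
* `rel_symm` clear; `rel_ends`: an edge has exactly two ends (`hN.inc_two`); `rel_root`, `closed`: `hroot`, `hcl` (for `x = y` nothing to show).
* `D_conn`: `P x ∪ P y`, `x` adjacent to `y` (`inc_adj`, `connOn_union_adj`; every end is `x` or `y`). `D_card`, `D_card'`: `Set.ncard_union_le`.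
* `D_X`, `D_O`: from `Arm.toX`, `Arm.toO`.
* `D_far`: `w ∈ P x` has `own w = own x`, `own x ∈ {a, b}`; if `w` is within `2 r1 + 1` of `y ∈ X k` then `own w = k` (`own_near`, `2 (2 r1 + 1) ≤ h`).
* `D_D`: let `x ∈ P u`, `y ∈ P u'`, `u` an end of `ε q`, `u'` an end of `ε q'`, `Near (2 r1 + 1) x y`. `own x ≠ none`, so `x` is not within `2 r1 + 1` of
`X none ⊇ O` (`own_near`); so `near_avoid` gives `Near Oᶜ (2 r1 + 1) x y`, `x, y ∉ X none`; by `Arm.reach` `Near Oᶜ rho1 u x`,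
`Near Oᶜ rho1 u' y`; together `Near Oᶜ (2 rho1 + 2 r1 + 1) u u'`, against `hconf`. -/
theorem doors_of (hN : N.IsSphere) (Bo : BodiesOut N O h s s3 t rho1) (r1 : ℕ)
    (hh : 4 * r1 + 4 ≤ h) (own : N.V → Option Bo.B) (ho : IsOwn N.graph Bo.X own) (root : Bool)
    (m : ℕ) (ε : ℕ → N.E)
    (hroot : root = false → ∀ i < m, ∀ x, N.inc (ε i) x → own x ≠ none)
    (hcl : ∀ S : Set (Option Bo.B),
      (∀ i < m, ∀ x y, N.inc (ε i) x → N.inc (ε i) y → own x ∈ S → own y ∈ S) →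
      (∀ b b', some b ∈ S → some b' ∈ S) ∧
      (root = true → ∀ b, (some b ∈ S → none ∈ S) ∧ (none ∈ S → some b ∈ S)))
    (hconf : ∀ i < m, ∀ j < m, i ≠ j → ∀ x y, N.inc (ε i) x → N.inc (ε j) y →
      ¬ Near N.graph Oᶜ (2 * rho1 + 2 * r1 + 1) x y) :
    ∃ (D : ℕ → Set N.V) (rel : ℕ → Option Bo.B → Option Bo.B → Prop),
      Doors Bo r1 root D rel := by
  choose P hP using exists_arm Bo own ho
  set D : ℕ → Set N.V := fun q => {w | ∃ x, N.inc (ε q) x ∧ w ∈ P x} with hDdef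
  set rel : ℕ → Option Bo.B → Option Bo.B → Prop := fun q a b => q < m ∧ ∃ x y,
    N.inc (ε q) x ∧ N.inc (ε q) y ∧ x ≠ y ∧ own x = a ∧ own y = b with hrel
  have hDeq : ∀ q x y, N.inc (ε q) x → N.inc (ε q) y → x ≠ y → D q = P x ∪ P y := by
    intro q x y hx hy hxy
    ext w
    constructor
    · rintro ⟨u, hu, hw⟩
      rcases Doors_ends hN hxy hx hy hu with rfl | rfl
      · exact Or.inl hw
      · exact Or.inr hw
    · rintro (hw | hw)
      · exact ⟨x, hx, hw⟩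
      · exact ⟨y, hy, hw⟩
  have hr2 : 2 * (2 * r1 + 1) ≤ h := by omega
  refine ⟨D, rel, ?_⟩
  refine
    { rel_symm := ?_, rel_ends := ?_, rel_root := ?_, closed := ?_, D_conn := ?_, D_card := ?_,
      D_card' := ?_, D_X := ?_, D_O := ?_, D_far := ?_, D_D := ?_ }
  · rintro q a b ⟨hq, x, y, hx, hy, hxy, ha, hb⟩
    exact ⟨hq, y, x, hy, hx, hxy.symm, hb, ha⟩
  · rintro q a b a' b' ⟨hq, x, y, hx, hy, hxy, ha, hb⟩ ⟨-, x', y', hx', hy', hxy', ha', hb'⟩
    rcases Doors_ends hN hxy hx hy hx' with rfl | rfl <;>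
      rcases Doors_ends hN hxy hx hy hy' with rfl | rfl
    · exact absurd rfl hxy'
    · exact Or.inl ⟨ha.symm.trans ha', hb.symm.trans hb'⟩
    · exact Or.inr ⟨ha.symm.trans hb', hb.symm.trans ha'⟩
    · exact absurd rfl hxy'
  · rintro hr q a b ⟨hq, x, y, hx, hy, hxy, ha, hb⟩
    rw [← ha]
    exact hroot hr q hq x hx
  · intro S hS
    refine hcl S ?_
    intro i hi x y hx hy hxS
    by_cases hxy : x = y
    · rw [← hxy]
      exact hxS
    · exact hS i (own x) (own y) ⟨hi, x, y, hx, hy, hxy, rfl, rfl⟩ hxS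
  · rintro q a b ⟨hq, x, y, hx, hy, hxy, ha, hb⟩
    rw [hDeq q x y hx hy hxy]
    exact connOn_union_adj (hP x).conn (hP y).conn
      ⟨x, (hP x).mem, y, (hP y).mem, inc_adj hN hx hy hxy⟩
  · rintro q a b ⟨hq, x, y, hx, hy, hxy, ha, hb⟩
    rw [hDeq q x y hx hy hxy]
    have h1 := Set.ncard_union_le (P x) (P y)
    have h2 := (hP x).card
    have h3 := (hP y).card
    omega
  · rintro q a b ⟨hq, x, y, hx, hy, hxy, ha, hb⟩ han hbn
    rw [hDeq q x y hx hy hxy]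
    obtain ⟨c, hc⟩ := Option.ne_none_iff_exists'.1 han
    obtain ⟨d, hd⟩ := Option.ne_none_iff_exists'.1 hbn
    have h1 := Set.ncard_union_le (P x) (P y)
    have h2 := ((hP x).toX c (ha.trans hc)).1
    have h3 := ((hP y).toX d (hb.trans hd)).1
    omega
  · rintro q c b ⟨hq, x, y, hx, hy, hxy, ha, hb⟩
    obtain ⟨w, hw, hwX⟩ := ((hP x).toX c ha).2
    exact ⟨w, ⟨x, hx, hw⟩, hwX⟩
  · rintro q b ⟨hq, x, y, hx, hy, hxy, ha, hb⟩
    obtain ⟨w, hw, hwO⟩ := (hP x).toO ha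
    exact ⟨w, ⟨x, hx, hw⟩, hwO⟩
  · rintro q a b ⟨hq, x, y, hx, hy, hxy, ha, hb⟩ k hka hkb w ⟨u, hu, hw⟩ z hz hnear
    have h1 : own w = k := own_near ho Bo.far hr2 hz hnear
    have h2 : own w = own u := (hP u).cell w hw
    rcases Doors_ends hN hxy hx hy hu with rfl | rfl
    · exact hka (h1.symm.trans (h2.trans ha))
    · exact hkb (h1.symm.trans (h2.trans hb))
  · rintro q a b q' a' b' ⟨hq, x, y, hx, hy, hxy, ha, hb⟩ ⟨hq', -⟩ hqq han hbn w ⟨u, hu, hw⟩ z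
      ⟨u', hu', hz⟩ hnear
    have h2 : own w = own u := (hP u).cell w hw
    have h3 : own w ≠ none := by
      rw [h2]
      rcases Doors_ends hN hxy hx hy hu with rfl | rfl
      · rw [ha]; exact han
      · rw [hb]; exact hbn
    have h4 : ∀ z' ∈ Bo.X none, ¬ Near N.graph Set.univ (2 * r1 + 1) w z' := by
      intro z' hz' hn
      exact h3 (own_near ho Bo.far hr2 hz' hn)
    have h5 : Near N.graph Oᶜ (2 * r1 + 1) w z := near_avoid hnear fun z' hz' => h4 z' (Bo.O_sub hz')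
    have h6 : w ∉ Bo.X none := fun hh => h3 (ho.1 none w hh)
    have h7 : z ∉ Bo.X none := fun hh => h4 z hh hnear
    have h8 : Near N.graph Oᶜ rho1 u w := ((hP u).reach w hw).resolve_left h6
    have h9 : Near N.graph Oᶜ rho1 u' z := ((hP u').reach z hz).resolve_left h7
    have h10 := near_trans (near_trans h8 h5) (near_symm h9)
    exact hconf q hq q' hq' hqq u u' hu hu' (near_mono h10 (by omega) (Set.Subset.refl _))

/-- Existence of doors. `exists_own` (`hN.conn`; the sets `X k` are disjoint by `Bo.far`); `contraction` with `I = Option B`, `g = id`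
(`cell_conn`, `cells_perim`, `1 ≤ l` by `hl`) gives `root, q, θ`; `transversal` for `J = Fin q`, `C i = θ i`,
`conf e e' = ∃ x y, inc e x ∧ inc e' y ∧ Near Oᶜ (2 rho1 + 2 r1 + 1) x y`, `Δ = 2 (D+1)^(2 rho1 + 2 r1 + 2)` (`edge_conf_card`); extend the
choice to `ε : ℕ → N.E` (there is an edge: `O` and an island give two different vertices, and the graph is connected); `doors_of`. -/
theorem doors_out (hE5 : E5Stmt) (hN : N.IsSphere) (hQ : N.Quad) (D0 : ℕ)
    (hD : ∀ v, N.deg v ≤ D0) (hO : O.Nonempty) (lmax l r1 : ℕ) (ρ : ℕ → ℕ)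
    (hL : LLC N O lmax ρ)
    (hl0 : 16 * (2 * (D0 + 1) ^ (2 * rho1 + 2 * r1 + 1 + 1)) ≤ l) (hl : 8 * (5 * l) ≤ lmax)
    (Bo : BodiesOut N O h s s3 t rho1) (hh : 4 * r1 + 4 ≤ h)
    (hs : 2 * (8 * (5 * l)) * (D0 + 1) ^ ρ (8 * (5 * l)) < s) :
    ∃ (root : Bool) (D : ℕ → Set N.V) (rel : ℕ → Option Bo.B → Option Bo.B → Prop),
      Doors Bo r1 root D rel := by
  have hpos : 1 ≤ 2 * (D0 + 1) ^ (2 * rho1 + 2 * r1 + 1 + 1) := by
    have h1 : 0 < (D0 + 1) ^ (2 * rho1 + 2 * r1 + 1 + 1) := pow_pos (Nat.succ_pos D0) _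
    omega
  have hl1 : 1 ≤ l := by omega
  obtain ⟨own, ho⟩ := exists_own N.graph hN.conn Bo.X ⟨none, (Bo.X_conn none).1⟩ (by
    intro k k' v hv hv'
    by_contra hne
    exact Bo.far k k' hne v hv v hv'
      (near_mono (near_refl (Set.mem_univ v)) (Nat.zero_le _) (Set.Subset.refl _)))
  have hcell : ∀ i : Option Bo.B, ConnOn N.graph {v | id (own v) = i} := fun i =>
    cell_conn hN.conn ho Bo.X_conn i
  obtain ⟨root, q, θ, h1, h2, h3, h4, h5⟩ := contraction (own := own) (l := l) hE5 hN hl1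
    (fun S => cells_perim hN hQ D0 hD lmax l ρ hL hl Bo own ho (by omega) hs S)
    (Fintype.card (Option Bo.B)) (Option Bo.B) id rfl hcell
  -- the choice of the edges
  obtain ⟨ω, hω1, hω2⟩ := transversal (J := Fin q) (Y := N.E)
    (fun e e' => ∃ x y, N.inc e x ∧ N.inc e' y ∧
      Near N.graph Oᶜ (2 * rho1 + 2 * r1 + 1) x y)
    (by
      rintro e e' ⟨x, y, hx, hy, hxy⟩
      exact ⟨y, x, hy, hx, near_symm hxy⟩)
    (2 * (D0 + 1) ^ (2 * rho1 + 2 * r1 + 1 + 1)) l hpos hl0 (fun j => θ j)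
    (fun j => h1 j j.2)
    (fun j j' hjj e he => h2 j j.2 j' j'.2 (fun hh => hjj (Fin.ext hh)) e he)
    (fun e => by convert edge_conf_card hN D0 hD Oᶜ (2 * rho1 + 2 * r1 + 1) e)
  -- there is an edge
  obtain ⟨e0⟩ : Nonempty N.E := by
    obtain ⟨o, hoO⟩ := hO
    obtain ⟨b⟩ : Nonempty Bo.B := inferInstance
    obtain ⟨z, hz⟩ := (Bo.Z_conn b).1
    have hoz : z ≠ o := by
      intro hh
      exact Bo.far (some b) none (Option.some_ne_none b) z (Bo.Z_sub b hz) o (Bo.O_sub hoO)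
        (by rw [hh]; exact near_mono (near_refl (Set.mem_univ o)) (Nat.zero_le _)
              (Set.Subset.refl _))
    obtain ⟨n, hn⟩ := hN.conn o z
    obtain ⟨u, v, k, k', -, -, hadj, -, -⟩ := near_exit (B := {o}) hn rfl hoz
    obtain ⟨-, e, -, -⟩ := hadj
    exact ⟨e⟩
  set ε : ℕ → N.E := fun i => if hi : i < q then ω ⟨i, hi⟩ else e0 with hε
  have hεi : ∀ i (hi : i < q), ε i = ω ⟨i, hi⟩ := fun i hi => dif_pos hi
  have hεθ : ∀ i < q, ε i ∈ θ i := by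
    intro i hi
    rw [hεi i hi]
    exact hω1 ⟨i, hi⟩
  obtain ⟨D, rel, hdo⟩ := doors_of hN Bo r1 hh own ho root q ε
    (fun hr i hi x hx => (h4 hr).2 i hi (ε i) (hεθ i hi) x hx)
    (fun S hS => h5 ε hεθ S (fun k k' hk hkS => by
      have hk' : k = k' := hk
      rw [← hk']
      exact hkS) hS)
    (by
      intro i hi j hj hij x y hx hy hnear
      rw [hεi i hi] at hx
      rw [hεi j hj] at hy
      exact hω2 ⟨i, hi⟩ ⟨j, hj⟩ (fun hh => hij (Fin.mk.inj hh)) ⟨x, y, hx, hy, hnear⟩)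
  exact ⟨root, D, rel, hdo⟩

end Pool.Agent.H.MP_c8cc4c_co
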