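import Mathlib

/-! # MP_c8cc4c_co, part T, file 11b: enumeration of a tree -/

open scoped Classical
open Finset

noncomputable section

namespace Pool.Agent.H.MP_c8cc4c_co

/-- partial enumerations -/
theorem Tree_partial {K : Type} [Fintype K] (r : K) (rel : ℕ → K → K → Prop)
    (hsymm : ∀ q a b, rel q a b → rel q b a)
    (hcl : ∀ S : Set K, r ∈ S → (∀ q a b, rel q a b → a ∈ S → b ∈ S) → ∀ k, k ∈ S) (n : ℕ) :
    n + 1 ≤ Fintype.card K → ∃ (e : ℕ → K) (p d : ℕ → ℕ), e 0 = r ∧
      (∀ i < n + 1, ∀ j < n + 1, e i = e j → i = j) ∧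
      (∀ i, 0 < i → i < n + 1 → p i < i ∧ rel (d i) (e i) (e (p i))) := by
  induction n with
  | zero =>
    intro _
    refine ⟨fun _ => r, fun _ => 0, fun _ => 0, rfl, ?_, ?_⟩
    · intro i hi j hj _; omega
    · intro i hi hi2; omega
  | succ n ih =>
    intro hn
    obtain ⟨e, p, d, h0, hinj, hrel⟩ := ih (by omega)
    have hS : ∃ k, k ∉ {k | ∃ i < n + 1, e i = k} := by
      by_contra hcon
      push Not at hcon
      have hsub : (univ : Finset K) ⊆ (Finset.range (n + 1)).image e := by
        intro k _
        obtain ⟨i, hi, hik⟩ := hcon k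
        exact Finset.mem_image.mpr ⟨i, Finset.mem_range.mpr hi, hik⟩
      have h1 := (Finset.card_le_card hsub).trans Finset.card_image_le
      rw [Finset.card_univ, Finset.card_range] at h1
      omega
    obtain ⟨k0, hk0⟩ := hS
    have hnc : ¬ ∀ q a b, rel q a b → a ∈ {k | ∃ i < n + 1, e i = k} →
        b ∈ {k | ∃ i < n + 1, e i = k} := by
      intro hc
      have hr : r ∈ {k | ∃ i < n + 1, e i = k} := ⟨0, by omega, h0⟩
      exact hk0 (hcl {k | ∃ i < n + 1, e i = k} hr hc k0)
    push Not at hnc
    obtain ⟨q, a, b, hab, ⟨i0, hi0, hia⟩, hb⟩ := hnc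
    have hb' : ∀ i < n + 1, e i ≠ b := fun i hi h => hb ⟨i, hi, h⟩
    refine ⟨Function.update e (n + 1) b, Function.update p (n + 1) i0,
      Function.update d (n + 1) q, ?_, ?_, ?_⟩
    · rw [Function.update_of_ne (by omega)]; exact h0
    · intro i hi j hj hij
      by_cases h1 : i = n + 1
      · by_cases h2 : j = n + 1
        · omega
        · rw [h1, Function.update_self, Function.update_of_ne h2] at hij
          exact absurd hij.symm (hb' j (by omega))
      · by_cases h2 : j = n + 1
        · rw [h2, Function.update_self, Function.update_of_ne h1] at hij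
          exact absurd hij (hb' i (by omega))
        · rw [Function.update_of_ne h1, Function.update_of_ne h2] at hij
          exact hinj i (by omega) j (by omega) hij
    · intro i hi hi2
      by_cases h1 : i = n + 1
      · subst h1
        rw [Function.update_self, Function.update_self, Function.update_self,
          Function.update_of_ne (by omega : i0 ≠ n + 1), hia]
        exact ⟨by omega, hsymm _ _ _ hab⟩
      · have h3 := hrel i hi (by omega)
        rw [Function.update_of_ne h1, Function.update_of_ne h1, Function.update_of_ne h1,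
          Function.update_of_ne (by omega : p i ≠ n + 1)]
        exact h3

/-- Enumeration of a finite set `K` connected by doors: `rel q a b` = the door number `q` joins `a` and `b`. Claim:
for `1 ≤ n ≤ card K` there are `e, p, d` such that `e 0 = r`, `e` is injective on `i < n`, and for `0 < i < n` we have `p i < i` and
`rel (d i) (e i) (e (p i))`. Step: if `n < card K` the set `S = {e i | i < n}` contains `r` but not everything, so it is not closed: there
are `q`, `a ∈ S`, `b ∉ S` with `rel q a b`; put `e n = b`, `p n` = index of `a`, `d n = q` (`Function.update`; `hsymm`). For `n = card K`: surjective by counting.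
`d i ≠ d j` for `0 < i < j`: otherwise `hends` gives `e j = e i` or `e j = e (p i)`, against injectivity. (`card K ≥ 1` because of `r`.) -/
theorem enum_tree {K : Type} [Fintype K] (r : K) (rel : ℕ → K → K → Prop)
    (hsymm : ∀ q a b, rel q a b → rel q b a)
    (hends : ∀ q a b a' b', rel q a b → rel q a' b' → (a = a' ∧ b = b') ∨ (a = b' ∧ b = a'))
    (hcl : ∀ S : Set K, r ∈ S → (∀ q a b, rel q a b → a ∈ S → b ∈ S) → ∀ k, k ∈ S) :
    ∃ (e : ℕ → K) (p d : ℕ → ℕ), e 0 = r ∧
      (∀ i < Fintype.card K, ∀ j < Fintype.card K, e i = e j → i = j) ∧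
      (∀ k, ∃ i < Fintype.card K, e i = k) ∧
      (∀ i, 0 < i → i < Fintype.card K → p i < i ∧ rel (d i) (e i) (e (p i))) ∧
      ∀ i j, 0 < i → i < Fintype.card K → 0 < j → j < Fintype.card K → i ≠ j → d i ≠ d j := by
  have hcard : 0 < Fintype.card K := Fintype.card_pos_iff.mpr ⟨r⟩
  obtain ⟨n, hn⟩ : ∃ n, n + 1 = Fintype.card K := ⟨Fintype.card K - 1, by omega⟩
  obtain ⟨e, p, d, h0, hinj, hrel⟩ := Tree_partial r rel hsymm hcl n (by omega)
  rw [hn] at hinj hrel
  refine ⟨e, p, d, h0, hinj, ?_, hrel, ?_⟩
  · have himg : (Finset.range (Fintype.card K)).image e = univ := by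
      apply Finset.eq_univ_of_card
      rw [Finset.card_image_of_injOn, Finset.card_range]
      intro i hi j hj hij
      exact hinj i (by simpa using hi) j (by simpa using hj) hij
    intro k
    have hk : k ∈ (Finset.range (Fintype.card K)).image e := by rw [himg]; exact Finset.mem_univ _
    obtain ⟨i, hi, hik⟩ := Finset.mem_image.mp hk
    exact ⟨i, Finset.mem_range.mp hi, hik⟩
  · have key : ∀ i j, 0 < i → i < j → j < Fintype.card K → d i ≠ d j := by
      intro i j hi hij hj hd
      have h1 := hrel i hi (by omega)
      have h2 := hrel j (by omega) hj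
      rw [← hd] at h2
      rcases hends _ _ _ _ _ h1.2 h2.2 with h3 | h3
      · have := hinj i (by omega) j hj h3.1
        omega
      · have := hinj (p i) (by omega) j hj h3.2
        omega
    intro i j hi hi2 hj hj2 hij
    rcases Nat.lt_or_gt_of_ne hij with h | h
    · exact key i j hi h hj2
    · exact (key j i hj h hi2).symm

end Pool.Agent.H.MP_c8cc4c_co
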