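import Mathlib
import Pool.Agent.H.MP_c8cc4c_co.T.Doors
import Pool.Agent.H.MP_c8cc4c_co.T.Tree

/-! # MP_c8cc4c_co, part T, file 15: the tree of bodies with an island as root -/

open scoped Classical
open Finset

noncomputable section

namespace Pool.Agent.H.MP_c8cc4c_co

variable {N : PC} {O : Set N.V} {h s s3 t rho1 : ℕ}

/-- `root = false`: every island contains a vertex `z` which is not within `r1` of any door. For an existing door `q` (all ends
are not `none` by `rel_root`) at most `2 (rho1+1) (D0+1)^r1 < s` vertices are within `r1` of `D q` (`D_card'`, `ball_card_set`, `nbr_card`),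
so `Z b` is not contained in this neighbourhood. Suppose every vertex of `Z b` is within `r1` of some door. Take a vertex of `Z b` in
the neighbourhood `W` of the door `q`; by `connOn_cross` there are adjacent `u ∈ Z b ∩ W`, `v ∈ Z b`, `v ∉ W`; `v` is within `r1` of a
door `q' ≠ q`; so `D q`, `D q'` contain vertices at distance at most `2 r1 + 1`, against `D_D`. -/
theorem far_point (hN : N.IsSphere) (D0 : ℕ) (hD : ∀ v, N.deg v ≤ D0)
    (Bo : BodiesOut N O h s s3 t rho1) (r1 : ℕ) (D : ℕ → Set N.V)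
    (rel : ℕ → Option Bo.B → Option Bo.B → Prop) (hDo : Doors Bo r1 false D rel)
    (hs : 2 * (rho1 + 1) * (D0 + 1) ^ r1 < s) (b : Bo.B) :
    ∃ z ∈ Bo.Z b, ∀ q a c, rel q a c → ∀ y ∈ D q, ¬ Near N.graph Set.univ r1 z y := by
  by_contra hcon
  push Not at hcon
  have hdeg : ∀ v, (univ.filter fun u => N.graph.Adj v u).card ≤ D0 := fun v =>
    (nbr_card hN v).trans (hD v)
  obtain ⟨z0, hz0⟩ := (Bo.Z_conn b).1
  obtain ⟨q, a, c, hrel, y0, hy0, hzy0⟩ := hcon z0 hz0
  have ha : a ≠ none := hDo.rel_root rfl _ _ _ hrel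
  have hc : c ≠ none := hDo.rel_root rfl _ _ _ (hDo.rel_symm _ _ _ hrel)
  set W : Set N.V := {z | ∃ y ∈ D q, Near N.graph Set.univ r1 z y} with hW
  have hWcard : W.ncard < s := by
    have h1 := ball_card_set D0 hdeg Set.univ r1 (D q)
    have h2 : W = ((univ.filter fun y => ∃ x ∈ D q, Near N.graph Set.univ r1 x y : Finset N.V) :
        Set N.V) := by
      ext z
      rw [hW, Finset.coe_filter]
      constructor
      · rintro ⟨y, hy, hzy⟩
        exact ⟨Finset.mem_univ _, y, hy, near_symm hzy⟩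
      · rintro ⟨-, y, hy, hyz⟩
        exact ⟨y, hy, near_symm hyz⟩
    rw [h2, Set.ncard_coe_finset]
    have h3 := hDo.D_card' _ _ _ hrel ha hc
    exact (h1.trans (Nat.mul_le_mul_right _ h3)).trans_lt hs
  have hnsub : ¬ Bo.Z b ⊆ W := by
    intro hsub
    have h1 := Set.ncard_le_ncard hsub (Set.toFinite _)
    rw [Bo.Z_card b] at h1
    omega
  rw [Set.not_subset] at hnsub
  obtain ⟨y1, hy1Z, hy1W⟩ := hnsub
  have hz0W : z0 ∈ W := ⟨y0, hy0, hzy0⟩
  obtain ⟨u, huZ, v, hvZ, ⟨x, hxD, hux⟩, hvW, huv⟩ :=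
    connOn_cross (Bo.Z_conn b) hz0 hz0W hy1Z hy1W
  obtain ⟨q', a', c', hrel', y, hyD, hvy⟩ := hcon v hvZ
  have hqq : q ≠ q' := by
    rintro rfl
    exact hvW ⟨y, hyD, hvy⟩
  refine hDo.D_D _ _ _ _ _ _ hrel hrel' hqq ha hc x hxD y hyD ?_
  have h1 : Near N.graph Set.univ 1 u v := near_adj (Set.mem_univ _) (Set.mem_univ _) huv
  exact near_mono (near_trans (near_trans (near_symm hux) h1) hvy) (by omega) (le_refl _)

/-- `root = false`. Take any `r : B`; `enum_tree` with `K = B`, `rel' q a b = rel q (some a) (some b)`: if `S ⊆ B` is closed for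
`rel'` and contains `r` then `S' = {k | ∃ b ∈ S, k = some b}` is closed for `rel` (`rel_root`), so `S` is everything. `n = card B`,
`X i = Bo.X (some (e i))`, `par i = if i = 0 then none else some (p i)`, `Dr i = if i = 0 then {z} else D (d i)` with `z ∈ Z (e 0)` from
`far_point`, `root = false`. The properties are checked as in `te_true`; for `i = 0`: `z ∈ X (some (e 0))`; `F2`: `Bo.far`; `F3`: `far_point`;
`F4'`: `Bo.far` with `none`, and `D_far` with `k = none` for `i > 0` (`rel_root`). -/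
theorem te_false (hN : N.IsSphere) (D0 : ℕ) (hD : ∀ v, N.deg v ≤ D0)
    (Bo : BodiesOut N O h s s3 t rho1) (r1 smin rhof : ℕ) (hh : 4 * r1 + 4 ≤ h)
    (D : ℕ → Set N.V) (rel : ℕ → Option Bo.B → Option Bo.B → Prop)
    (hDo : Doors Bo r1 false D rel) (hsm : smin ≤ s) (hs : 2 * (rho1 + 1) * (D0 + 1) ^ r1 < s)
    (hf1 : rho1 + t ≤ rhof) :
    Nonempty (TEOut N O r1 smin s3 (2 * (rho1 + 1 + (t + 1))) rho1 rhof) := by
  obtain ⟨r⟩ := Bo.neB
  obtain ⟨e, p, d, he0, hinj, hsurj, hrel, hdd⟩ := enum_tree (K := Bo.B) r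
    (fun q a b => rel q (some a) (some b)) (fun q a b hab => hDo.rel_symm _ _ _ hab) (by
      intro q a b a' b' h1 h2
      rcases hDo.rel_ends _ _ _ _ _ h1 h2 with ⟨h3, h4⟩ | ⟨h3, h4⟩
      · exact Or.inl ⟨Option.some.inj h3, Option.some.inj h4⟩
      · exact Or.inr ⟨Option.some.inj h3, Option.some.inj h4⟩) (by
      intro S hS hSc k
      have h1 := (hDo.closed {k | ∃ b ∈ S, k = some b} (by
        rintro q a b hab ⟨a0, ha0, rfl⟩
        have hb : b ≠ none := hDo.rel_root rfl _ _ _ (hDo.rel_symm _ _ _ hab)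
        obtain ⟨b0, rfl⟩ := Option.ne_none_iff_exists'.1 hb
        exact ⟨b0, hSc q a0 b0 hab ha0, rfl⟩)).1 r k ⟨r, hS, rfl⟩
      obtain ⟨b, hb, hkb⟩ := h1
      rw [Option.some.inj hkb]
      exact hb)
  have hcard : 0 < Fintype.card Bo.B := Fintype.card_pos_iff.mpr ⟨r⟩
  obtain ⟨z, hzZ, hzfar⟩ := far_point hN D0 hD Bo r1 D rel hDo hs (e 0)
  have hzX : z ∈ Bo.X (some (e 0)) := Bo.Z_sub _ hzZ
  have hinj' : ∀ i < Fintype.card Bo.B, ∀ j < Fintype.card Bo.B, i ≠ j →
      (some (e i) : Option Bo.B) ≠ some (e j) := by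
    intro i hi j hj hij hcon
    exact hij (hinj i hi j hj (Option.some.inj hcon))
  have hOX : ∀ b, ∀ x ∈ Bo.X (some b), ∀ y ∈ O, ¬ Near N.graph Set.univ h x y :=
    fun b x hx y hy => Bo.far (some b) none (by simp) x hx y (Bo.O_sub hy)
  let par : ℕ → Option ℕ := fun i => if i = 0 then none else some (p i)
  have hpar0 : par 0 = none := if_pos rfl
  have hpar1 : ∀ i, i ≠ 0 → par i = some (p i) := fun i hi => if_neg hi
  let Dr : ℕ → Set N.V := fun i => if i = 0 then {z} else D (d i)
  have hDr0 : Dr 0 = {z} := if_pos rfl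
  have hDr1 : ∀ i, i ≠ 0 → Dr i = D (d i) := fun i hi => if_neg hi
  refine ⟨{
    n := Fintype.card Bo.B
    X := fun i => Bo.X (some (e i))
    Dr := Dr
    par := par
    root := false
    X_conn := fun i _ => Bo.X_conn _
    X_O := ?_
    X_min := ?_
    X_max := fun i _ => Bo.X_card _
    par_lt := ?_
    par_root := ?_
    D_conn := ?_
    D_card := ?_
    D_X := ?_
    D_par := ?_
    D_O := fun hc => absurd hc (by simp)
    F1 := ?_
    F2 := ?_
    F3 := ?_
    F4 := ?_
    F4' := ?_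
    F5 := ?_
    F6 := fun hc => absurd hc (by simp) }⟩
  · intro i hi x hx hxO
    exact hOX _ x hx x hxO (near_mono (near_refl (Set.mem_univ x)) (Nat.zero_le _) (le_refl _))
  · intro i hi
    have h1 := Set.ncard_le_ncard (Bo.Z_sub (e i)) (Set.toFinite _)
    rw [Bo.Z_card] at h1
    exact hsm.trans h1
  · intro i hi j hj
    by_cases hi0 : i = 0
    · rw [hi0, hpar0] at hj
      exact absurd hj (by simp)
    · rw [hpar1 i hi0] at hj
      rw [← Option.some.inj hj]
      exact (hrel i (by omega) hi).1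
  · intro _
    refine ⟨hcard, fun i hi => ?_⟩
    by_cases hi0 : i = 0
    · rw [hi0, hpar0]
      simp
    · rw [hpar1 i hi0]
      simp [hi0]
  · intro i hi
    by_cases hi0 : i = 0
    · rw [hi0, hDr0]
      exact connOn_singleton z
    · rw [hDr1 i hi0]
      exact hDo.D_conn _ _ _ (hrel i (by omega) hi).2
  · intro i hi
    by_cases hi0 : i = 0
    · rw [hi0, hDr0, Set.ncard_singleton]
      omega
    · rw [hDr1 i hi0]
      exact hDo.D_card _ _ _ (hrel i (by omega) hi).2
  · intro i hi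
    by_cases hi0 : i = 0
    · rw [hi0, hDr0]
      exact ⟨z, rfl, hzX⟩
    · rw [hDr1 i hi0]
      exact hDo.D_X _ _ _ (hrel i (by omega) hi).2
  · intro i hi j hj
    by_cases hi0 : i = 0
    · rw [hi0, hpar0] at hj
      exact absurd hj (by simp)
    · rw [hpar1 i hi0] at hj
      rw [hDr1 i hi0, ← Option.some.inj hj]
      exact hDo.D_X _ _ _ (hDo.rel_symm _ _ _ (hrel i (by omega) hi).2)
  · intro i hi j hj hij x hx y hy hxy
    exact Bo.far _ _ (hinj' i hi j hj hij) x hx y hy (near_mono hxy (by omega) (le_refl _))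
  · intro i hi j hj hij hpi x hx y hy hxy
    by_cases hi0 : i = 0
    · subst hi0
      rw [hDr0] at hx
      have hx' : x = z := hx
      subst hx'
      exact Bo.far _ _ (hinj' 0 hi j hj hij.symm) x hzX y hy
        (near_mono hxy (by omega) (le_refl _))
    · rw [hDr1 i hi0] at hx
      rw [hpar1 i hi0] at hpi
      have hpj : j ≠ p i := fun hcon => hpi (by rw [hcon])
      have hr := hrel i (by omega) hi
      exact hDo.D_far _ _ _ hr.2 (some (e j)) (hinj' j hj i hi hij)
        (hinj' j hj (p i) (by omega) hpj) x hx y hy (near_mono hxy (by omega) (le_refl _))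
  · intro i hi j hj hij _ x hx y hy hxy
    by_cases hi0 : i = 0
    · subst hi0
      rw [hDr0] at hx
      have hx' : x = z := hx
      subst hx'
      rw [hDr1 j hij.symm] at hy
      exact hzfar _ _ _ (hrel j (by omega) hj).2 y hy hxy
    · rw [hDr1 i hi0] at hx
      by_cases hj0 : j = 0
      · subst hj0
        rw [hDr0] at hy
        have hy' : y = z := hy
        subst hy'
        exact hzfar _ _ _ (hrel i (by omega) hi).2 x hx (near_symm hxy)
      · rw [hDr1 j hj0] at hy
        exact hDo.D_D _ _ _ _ _ _ (hrel i (by omega) hi).2 (hrel j (by omega) hj).2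
          (hdd i j (by omega) hi (by omega) hj hij) (by simp) (by simp) x hx y hy
          (near_mono hxy (by omega) (le_refl _))
  · intro i hi x hx y hy hxy
    exact hOX _ x hx y hy (near_mono hxy (by omega) (le_refl _))
  · intro i hi _ x hx y hy hxy
    by_cases hi0 : i = 0
    · subst hi0
      rw [hDr0] at hx
      have hx' : x = z := hx
      subst hx'
      exact hOX _ x hzX y hy (near_mono hxy (by omega) (le_refl _))
    · rw [hDr1 i hi0] at hx
      exact hDo.D_far _ _ _ (hrel i (by omega) hi).2 none (by simp) (by simp) x hx y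
        (Bo.O_sub hy) (near_mono hxy (by omega) (le_refl _))
  · intro v
    obtain ⟨k, x, hx, hvx⟩ := Bo.cover v
    rcases k with _ | b
    · right
      obtain ⟨y, hy, hxy⟩ := Bo.reach x hx
      exact ⟨y, hy, near_mono (near_trans hvx (near_mono hxy (le_refl _) (Set.subset_univ _))) hf1
        (le_refl _)⟩
    · left
      obtain ⟨i, hi, hei⟩ := hsurj b
      refine ⟨i, hi, x, ?_, hvx⟩
      change x ∈ Bo.X (some (e i))
      rw [hei]
      exact hx

end Pool.Agent.H.MP_c8cc4c_co
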