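import Mathlib
import Pool.Agent.H.MP_c8cc4c_co.T.Doors
import Pool.Agent.H.MP_c8cc4c_co.T.Tree

/-! # MP_c8cc4c_co, part T, file 14: the tree of bodies with root `O` -/

open scoped Classical
open Finset

noncomputable section

namespace Pool.Agent.H.MP_c8cc4c_co

variable {N : PC} {O : Set N.V} {h s s3 t rho1 : ℕ}

/-- `root = true`. `enum_tree` with `K = Option B`, `r = none` (`closed`: a closed set containing `none` contains all `some b`) gives `e, p, d`;
`Fintype.card (Option B) = card B + 1`. `n = card B`, `X i = Bo.X (e (i + 1))`, `Dr i = D (d (i + 1))`,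
`par i = if p (i + 1) = 0 then none else some (p (i + 1) - 1)`. For `i < n`: `e (i + 1) ≠ e 0 = none` by injectivity, so `e (i + 1) = some b`.
* `X_O`: `O ⊆ X none`, `Bo.far` (distance `0`). `X_min`: `Z b ⊆ X (some b)`, `smin ≤ s`. `X_max`: `Bo.X_card`.
* `D_X`, `D_par`, `D_O`: `Doors.D_X`, `Doors.D_O` (with `rel_symm` for the parent).
* `F1`: `Bo.far`, `r1 ≤ h`. `F2`: `D_far` with `k = e (j + 1)`; `k ≠ e (i + 1)` and `k ≠ e (p (i + 1))` by injectivity. `F3`: by symmetry let
`par i ≠ none`, i.e. `p (i + 1) ≠ 0`, `e (p (i + 1)) ≠ none`; `d (i + 1) ≠ d (j + 1)`; `D_D`. `F4`: `Bo.far` with `none`. `F4'`: `par i ≠ none`: `D_far`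
with `k = none`. `F5`: `Bo.cover v` gives `k`, `x ∈ X k` within `rho1`; if `k = some b` then `some b = e (i + 1)` for some `i < n`; if `k = none` use
`Bo.reach`: `v` is within `rho1 + t ≤ rhof` of `O`. `F6`: `Dr i` is connected, contains a vertex of `O`, has at most `Ld` vertices:
`connOn_near`, `Ld ≤ rhof`. -/
theorem te_true (Bo : BodiesOut N O h s s3 t rho1) (r1 smin rhof : ℕ) (hh : 4 * r1 + 4 ≤ h)
    (D : ℕ → Set N.V) (rel : ℕ → Option Bo.B → Option Bo.B → Prop) (hDo : Doors Bo r1 true D rel)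
    (hsm : smin ≤ s) (hf1 : rho1 + t ≤ rhof) (hf2 : 2 * (rho1 + 1 + (t + 1)) ≤ rhof) :
    Nonempty (TEOut N O r1 smin s3 (2 * (rho1 + 1 + (t + 1))) rho1 rhof) := by
  obtain ⟨e, p, d, he0, hinj, hsurj, hrel, hdd⟩ := enum_tree (K := Option Bo.B) none rel
    hDo.rel_symm hDo.rel_ends (by
      intro S hS hSc k
      obtain ⟨h1, h2⟩ := hDo.closed S hSc
      rcases k with _ | b
      · exact hS
      · exact (h2 rfl b).2 hS)
  have hcard : Fintype.card (Option Bo.B) = Fintype.card Bo.B + 1 := Fintype.card_option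
  rw [hcard] at hinj hsurj hrel hdd
  have hne : ∀ i < Fintype.card Bo.B, e (i + 1) ≠ none := by
    intro i hi hcon
    have := hinj (i + 1) (by omega) 0 (by omega) (hcon.trans he0.symm)
    omega
  have hsome : ∀ i < Fintype.card Bo.B, ∃ b, e (i + 1) = some b := fun i hi =>
    Option.ne_none_iff_exists'.1 (hne i hi)
  have hr : ∀ i < Fintype.card Bo.B, p (i + 1) < i + 1 ∧
      rel (d (i + 1)) (e (i + 1)) (e (p (i + 1))) := fun i hi => hrel (i + 1) (by omega) (by omega)
  have hpne : ∀ i < Fintype.card Bo.B, p (i + 1) ≠ 0 → e (p (i + 1)) ≠ none := by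
    intro i hi hp0 hcon
    have := hinj (p (i + 1)) (by have := (hr i hi).1; omega) 0 (by omega) (hcon.trans he0.symm)
    exact hp0 this
  have hinj' : ∀ i < Fintype.card Bo.B, ∀ j < Fintype.card Bo.B, i ≠ j → e (i + 1) ≠ e (j + 1) := by
    intro i hi j hj hij hcon
    have := hinj (i + 1) (by omega) (j + 1) (by omega) hcon
    omega
  have hOX : ∀ k, k ≠ none → ∀ x ∈ Bo.X k, ∀ y ∈ O, ¬ Near N.graph Set.univ h x y :=
    fun k hk x hx y hy => Bo.far k none hk x hx y (Bo.O_sub hy)
  let par : ℕ → Option ℕ := fun i => if p (i + 1) = 0 then none else some (p (i + 1) - 1)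
  have hpar0 : ∀ i, par i = none → p (i + 1) = 0 := by
    intro i hi
    by_contra hcon
    have : par i = some (p (i + 1) - 1) := if_neg hcon
    rw [this] at hi
    exact absurd hi (by simp)
  have hpar1 : ∀ i, par i ≠ none → p (i + 1) ≠ 0 := by
    intro i hi hcon
    exact hi (if_pos hcon)
  have hpars : ∀ i j, par i = some j → p (i + 1) = j + 1 := by
    intro i j hi
    have h0 : p (i + 1) ≠ 0 := hpar1 i (by rw [hi]; simp)
    have h1 : par i = some (p (i + 1) - 1) := if_neg h0
    rw [h1] at hi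
    have := Option.some.inj hi
    omega
  have hpars' : ∀ i j, p (i + 1) = j + 1 → par i = some j := by
    intro i j hij
    have h1 : par i = some (p (i + 1) - 1) := if_neg (by omega)
    rw [h1, hij]
    rfl
  have hF3 : ∀ i < Fintype.card Bo.B, ∀ j < Fintype.card Bo.B, i ≠ j → par i ≠ none →
      ∀ x ∈ D (d (i + 1)), ∀ y ∈ D (d (j + 1)), ¬ Near N.graph Set.univ r1 x y := by
    intro i hi j hj hij hpi x hx y hy hxy
    exact hDo.D_D _ _ _ _ _ _ (hr i hi).2 (hr j hj).2
      (hdd (i + 1) (j + 1) (by omega) (by omega) (by omega) (by omega) (by omega))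
      (hne i hi) (hpne i hi (hpar1 i hpi)) x hx y hy (near_mono hxy (by omega) (le_refl _))
  refine ⟨{
    n := Fintype.card Bo.B
    X := fun i => Bo.X (e (i + 1))
    Dr := fun i => D (d (i + 1))
    par := par
    root := true
    X_conn := fun i _ => Bo.X_conn _
    X_O := ?_
    X_min := ?_
    X_max := ?_
    par_lt := ?_
    par_root := fun hc => absurd hc (by simp)
    D_conn := fun i hi => hDo.D_conn _ _ _ (hr i hi).2
    D_card := fun i hi => hDo.D_card _ _ _ (hr i hi).2
    D_X := ?_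
    D_par := ?_
    D_O := ?_
    F1 := ?_
    F2 := ?_
    F3 := ?_
    F4 := ?_
    F4' := ?_
    F5 := ?_
    F6 := ?_ }⟩
  · intro i hi x hx hxO
    exact hOX _ (hne i hi) x hx x hxO (near_mono (near_refl (Set.mem_univ x)) (Nat.zero_le _)
      (le_refl _))
  · intro i hi
    obtain ⟨b, hb⟩ := hsome i hi
    change smin ≤ (Bo.X (e (i + 1))).ncard
    rw [hb]
    have h1 := Set.ncard_le_ncard (Bo.Z_sub b) (Set.toFinite _)
    rw [Bo.Z_card b] at h1
    omega
  · intro i hi
    obtain ⟨b, hb⟩ := hsome i hi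
    change (Bo.X (e (i + 1))).ncard ≤ s3
    rw [hb]
    exact Bo.X_card b
  · intro i hi j hj
    have h1 := hpars i j hj
    have h2 := (hr i hi).1
    omega
  · intro i hi
    obtain ⟨b, hb⟩ := hsome i hi
    have h1 := (hr i hi).2
    rw [hb] at h1
    change ∃ x ∈ D (d (i + 1)), x ∈ Bo.X (e (i + 1))
    rw [hb]
    exact hDo.D_X _ _ _ h1
  · intro i hi j hj
    have h1 := hpars i j hj
    have h2 := hpne i hi (by omega)
    obtain ⟨c, hc⟩ := Option.ne_none_iff_exists'.1 h2
    have h3 := hDo.rel_symm _ _ _ (hr i hi).2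
    rw [hc] at h3
    change ∃ x ∈ D (d (i + 1)), x ∈ Bo.X (e (j + 1))
    rw [← h1, hc]
    exact hDo.D_X _ _ _ h3
  · intro _ i hi hpi
    have h1 := hpar0 i hpi
    have h3 := hDo.rel_symm _ _ _ (hr i hi).2
    rw [h1, he0] at h3
    exact hDo.D_O _ _ h3
  · intro i hi j hj hij x hx y hy hxy
    exact Bo.far _ _ (hinj' i hi j hj hij) x hx y hy (near_mono hxy (by omega) (le_refl _))
  · intro i hi j hj hij hpi x hx y hy hxy
    refine hDo.D_far _ _ _ (hr i hi).2 (e (j + 1)) (hinj' j hj i hi hij) ?_ x hx y hy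
      (near_mono hxy (by omega) (le_refl _))
    intro hcon
    have h1 := hinj (j + 1) (by omega) (p (i + 1)) (by have := (hr i hi).1; omega) hcon
    exact hpi (hpars' i j h1.symm)
  · intro i hi j hj hij hpp x hx y hy hxy
    by_cases hpi : par i = none
    · have hpj : par j ≠ none := fun hpj => hpp ⟨hpi, hpj⟩
      exact hF3 j hj i hi hij.symm hpj y hy x hx (near_symm hxy)
    · exact hF3 i hi j hj hij hpi x hx y hy hxy
  · intro i hi x hx y hy hxy
    exact hOX _ (hne i hi) x hx y hy (near_mono hxy (by omega) (le_refl _))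
  · intro i hi hpi x hx y hy hxy
    have hpi' : par i ≠ none := by
      rcases hpi with h1 | h1
      · exact h1
      · exact absurd h1 (by simp)
    exact hDo.D_far _ _ _ (hr i hi).2 none (hne i hi).symm (hpne i hi (hpar1 i hpi')).symm x hx y
      (Bo.O_sub hy) (near_mono hxy (by omega) (le_refl _))
  · intro v
    obtain ⟨k, x, hx, hvx⟩ := Bo.cover v
    rcases k with _ | b
    · right
      obtain ⟨y, hy, hxy⟩ := Bo.reach x hx
      exact ⟨y, hy, near_mono (near_trans hvx (near_mono hxy (le_refl _) (Set.subset_univ _))) hf1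
        (le_refl _)⟩
    · left
      obtain ⟨i0, hi0, hei⟩ := hsurj (some b)
      rcases i0 with _ | i
      · rw [he0] at hei
        exact absurd hei (by simp)
      · refine ⟨i, by omega, x, ?_, hvx⟩
        change x ∈ Bo.X (e (i + 1))
        rw [hei]
        exact hx
  · intro _ i hi hpi x hx
    have h1 := hpar0 i hpi
    have h3 := hDo.rel_symm _ _ _ (hr i hi).2
    rw [h1, he0] at h3
    obtain ⟨y, hyD, hyO⟩ := hDo.D_O _ _ h3
    have h4 := hDo.D_conn _ _ _ (hr i hi).2
    have h5 := hDo.D_card _ _ _ (hr i hi).2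
    refine ⟨y, hyO, near_mono (connOn_near h4 hx hyD) ?_ (Set.subset_univ _)⟩
    omega

end Pool.Agent.H.MP_c8cc4c_co
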