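import Mathlib
import Pool.Agent.H.MP_c8cc4c_co.T.TETrue
import Pool.Agent.H.MP_c8cc4c_co.T.TEFalse

/-! # MP_c8cc4c_co, part T, file 16: the main theorem of part T -/

open scoped Classical
open Finset

noncomputable section

namespace Pool.Agent.H.MP_c8cc4c_co

/-- Part T. Constants: `h = 4 r1 + 4`, `l0 = 16 (D2+1)^(17 h)`, `L0 = 8 (D2 l0)`, `rho1 = ρ L0 + 1 + 8 h`,
`l = 16 * (2 * (D2+1)^(2 rho1 + 2 r1 + 1 + 1))`, `L1 = 8 (5 l)`, `lmax = max L0 L1`;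
given `smin`: `s = smin + 2 L0 (D2+1)^(ρ L0) + 2 L1 (D2+1)^(ρ L1) + 2 (rho1+1) (D2+1)^r1 + 1`, `t = s + 8 h`, `s3 = s (D2+1)^(s + 8 h)`,
`Ld = 2 (rho1 + 1 + (t + 1))`, `rhof = (6 h + s) + (rho1 + t) + Ld`. `bodies_out`, `doors_out`, `te_true`, `te_false`. -/
theorem te (hE5 : E5Stmt) : TEStmt := by
  intro D2 r1 ρ
  obtain ⟨h, hh⟩ : ∃ h, h = 4 * r1 + 4 := ⟨_, rfl⟩
  obtain ⟨l0, hl0⟩ : ∃ l0, l0 = 16 * (D2 + 1) ^ (17 * h) := ⟨_, rfl⟩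
  obtain ⟨rho1, hrho1⟩ : ∃ rho1, rho1 = ρ (8 * (D2 * l0)) + 1 + 8 * h := ⟨_, rfl⟩
  obtain ⟨l, hl⟩ : ∃ l, l = 16 * (2 * (D2 + 1) ^ (2 * rho1 + 2 * r1 + 1 + 1)) := ⟨_, rfl⟩
  obtain ⟨lmax, hlmax⟩ : ∃ lmax, lmax = max (8 * (D2 * l0)) (8 * (5 * l)) := ⟨_, rfl⟩
  refine ⟨lmax, rho1, fun smin => ?_⟩
  obtain ⟨A0, hA0⟩ : ∃ A, A = 2 * (8 * (D2 * l0)) * (D2 + 1) ^ ρ (8 * (D2 * l0)) := ⟨_, rfl⟩
  obtain ⟨A1, hA1⟩ : ∃ A, A = 2 * (8 * (5 * l)) * (D2 + 1) ^ ρ (8 * (5 * l)) := ⟨_, rfl⟩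
  obtain ⟨A2, hA2⟩ : ∃ A, A = 2 * (rho1 + 1) * (D2 + 1) ^ r1 := ⟨_, rfl⟩
  obtain ⟨s, hs⟩ : ∃ s, s = smin + A0 + A1 + A2 + 1 := ⟨_, rfl⟩
  obtain ⟨t, ht⟩ : ∃ t, t = s + 8 * h := ⟨_, rfl⟩
  refine ⟨s * (D2 + 1) ^ t, 2 * (rho1 + 1 + (t + 1)),
    (6 * h + s) + (rho1 + t) + 2 * (rho1 + 1 + (t + 1)), ?_⟩
  intro N O hN hQ hD hO hL
  have hs0 : 2 * (8 * (D2 * l0)) * (D2 + 1) ^ ρ (8 * (D2 * l0)) < s := by
    rw [← hA0]; omega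
  have hs1 : 2 * (8 * (5 * l)) * (D2 + 1) ^ ρ (8 * (5 * l)) < s := by
    rw [← hA1]; omega
  have hs2 : 2 * (rho1 + 1) * (D2 + 1) ^ r1 < s := by
    rw [← hA2]; omega
  have hB := bodies_out D2 h l0 rho1 s lmax ρ (by omega) hl0.ge
    (by rw [hlmax]; exact le_max_left _ _) hrho1.ge hs0 hN hQ hD O hO hL
  rcases hB with hB | hB
  · left
    intro v
    obtain ⟨y, hy, p, hp, hps⟩ := hB v
    exact ⟨y, hy, p, by omega, hps⟩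
  · right
    rw [← ht] at hB
    obtain ⟨Bo⟩ := hB
    obtain ⟨root, Dd, rel, hDo⟩ := doors_out hE5 hN hQ D2 hD hO.1 lmax l r1 ρ hL hl.ge
      (by rw [hlmax]; exact le_max_right _ _) Bo (by omega) hs1
    cases root with
    | true =>
      exact te_true Bo r1 smin _ (by omega) Dd rel hDo (by omega) (by omega) (by omega)
    | false =>
      exact te_false hN D2 hD Bo r1 smin _ (by omega) Dd rel hDo (by omega) hs2 (by omega)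

end Pool.Agent.H.MP_c8cc4c_co
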